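import Pool.Agent.TH218.LS.Layer
set_option autoImplicit false

/-! # From sets to functions: Hölder's inequality in the level -/

open MeasureTheory Set
open scoped ENNReal

namespace Pool.Agent.TH218.LS

open Pool.Agent.TH280.LS

lemma hold (ν : Measure ℝ) (p : ℝ) (hp : 1 < p) (w : ℝ → ℝ) (hw : Measurable w)
    (hw0 : ∀ᵐ l ∂ν, 0 < w l) (a : ℝ → ℝ≥0∞) (ha : AEMeasurable a ν) :
    (∫⁻ l, a l ∂ν) ^ p ≤ (∫⁻ l, ENNReal.ofReal (w l ^ (-(1 / (p - 1)))) ∂ν) ^ (p - 1) *
      ∫⁻ l, ENNReal.ofReal (w l) * a l ^ p ∂ν := by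
  have hp0 : 0 < p := by linarith
  have hp1 : 0 < p - 1 := by linarith
  set q : ℝ := p / (p - 1) with hq
  have hqp : q.HolderConjugate p := by
    rw [Real.holderConjugate_comm, Real.holderConjugate_iff_eq_conjExponent hp]
  set f : ℝ → ℝ≥0∞ := fun l => ENNReal.ofReal (w l ^ (-(1 / p))) with hf
  set g : ℝ → ℝ≥0∞ := fun l => ENNReal.ofReal (w l ^ (1 / p)) * a l with hg
  have hfm : AEMeasurable f ν := (Measurable.pow_const hw _).ennreal_ofReal.aemeasurable
  have hgm : AEMeasurable g ν := (Measurable.pow_const hw _).ennreal_ofReal.aemeasurable.mul ha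
  have h1 : ∫⁻ l, a l ∂ν = ∫⁻ l, (f * g) l ∂ν := by
    refine lintegral_congr_ae ?_
    filter_upwards [hw0] with l hl
    simp only [Pi.mul_apply, hf, hg]
    rw [← mul_assoc, ← ENNReal.ofReal_mul (by positivity), ← Real.rpow_add hl]
    simp
  have h2 : ∫⁻ l, f l ^ q ∂ν = ∫⁻ l, ENNReal.ofReal (w l ^ (-(1 / (p - 1)))) ∂ν := by
    refine lintegral_congr_ae ?_
    filter_upwards [hw0] with l hl
    simp only [hf]
    rw [ENNReal.ofReal_rpow_of_pos (by positivity), ← Real.rpow_mul hl.le]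
    congr 2
    rw [hq]
    field_simp
  have h3 : ∫⁻ l, g l ^ p ∂ν = ∫⁻ l, ENNReal.ofReal (w l) * a l ^ p ∂ν := by
    refine lintegral_congr_ae ?_
    filter_upwards [hw0] with l hl
    simp only [hg]
    rw [ENNReal.mul_rpow_of_nonneg _ _ hp0.le, ENNReal.ofReal_rpow_of_pos (by positivity),
      ← Real.rpow_mul hl.le]
    congr 2
    rw [one_div, inv_mul_cancel₀ hp0.ne', Real.rpow_one]
  have h4 := ENNReal.lintegral_mul_le_Lp_mul_Lq ν hqp hfm hgm
  rw [← h1, h2, h3] at h4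
  have h5 := ENNReal.rpow_le_rpow h4 hp0.le
  rw [ENNReal.mul_rpow_of_nonneg _ _ hp0.le, ← ENNReal.rpow_mul, ← ENNReal.rpow_mul] at h5
  have e1 : 1 / q * p = p - 1 := by rw [hq]; field_simp
  have e2 : 1 / p * p = 1 := by field_simp
  rwa [e1, e2, ENNReal.rpow_one] at h5

lemma tail_int (Λ κ : ℝ) (hΛ : 0 < Λ) (hκ : 0 < κ) :
    ∫⁻ l in Ioi Λ, ENNReal.ofReal (l ^ (-1 - κ)) = ENNReal.ofReal (Λ ^ (-κ) / κ) := by
  rw [← ofReal_integral_eq_lintegral_ofReal (integrableOn_Ioi_rpow_of_lt (by linarith) hΛ)]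
  · rw [integral_Ioi_rpow_of_lt (by linarith) hΛ]
    congr 1
    have : -1 - κ + 1 = -κ := by ring
    rw [this]
    field_simp
  · refine (ae_restrict_iff' measurableSet_Ioi).2 (Filter.Eventually.of_forall fun l hl => ?_)
    have : 0 < l := hΛ.trans hl
    positivity

/-- combination of Hölder's inequality and of Tonelli's theorem -/
lemma comb (ν : Measure ℝ) [SFinite ν] (p : ℝ) (hp : 1 < p) (w : ℝ → ℝ) (hw : Measurable w)
    (hw0 : ∀ᵐ l ∂ν, 0 < w l) (a : ℝ → (Fin 2 → ℝ) → ℝ≥0∞)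
    (ha : Measurable (Function.uncurry a)) (W : (Fin 2 → ℝ) → ℝ≥0∞) (hW : Measurable W)
    (hWt : ∀ η, W η ≠ ⊤) (D : ℝ≥0∞) (hD : D ≠ ⊤)
    (hDe : ∫⁻ l, ENNReal.ofReal (w l ^ (-(1 / (p - 1)))) ∂ν = D) :
    ∫⁻ η, W η * (∫⁻ l, a l η ∂ν) ^ p ≤
      D ^ (p - 1) * ∫⁻ l, ENNReal.ofReal (w l) * (∫⁻ η, W η * a l η ^ p) ∂ν := by
  have hDp : D ^ (p - 1) ≠ ⊤ := ENNReal.rpow_ne_top_of_nonneg (by linarith) hD
  calc ∫⁻ η, W η * (∫⁻ l, a l η ∂ν) ^ p
      ≤ ∫⁻ η, W η * (D ^ (p - 1) * ∫⁻ l, ENNReal.ofReal (w l) * a l η ^ p ∂ν) := by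
        refine lintegral_mono fun η => mul_le_mul_right ?_ _
        have := hold ν p hp w hw hw0 (fun l => a l η)
          (ha.comp (measurable_id.prodMk measurable_const)).aemeasurable
        rwa [hDe] at this
    _ = D ^ (p - 1) * ∫⁻ η, ∫⁻ l, ENNReal.ofReal (w l) * (W η * a l η ^ p) ∂ν := by
        rw [← lintegral_const_mul' _ _ hDp]
        refine lintegral_congr fun η => ?_
        rw [mul_left_comm, ← lintegral_const_mul' _ _ (hWt η)]
        congr 1
        refine lintegral_congr fun l => ?_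
        rw [mul_left_comm]
    _ = D ^ (p - 1) * ∫⁻ l, (∫⁻ η, ENNReal.ofReal (w l) * (W η * a l η ^ p)) ∂ν := by
        congr 1
        refine lintegral_lintegral_swap ?_
        refine Measurable.aemeasurable ?_
        refine Measurable.mul (hw.comp measurable_snd).ennreal_ofReal (Measurable.mul
          (hW.comp measurable_fst) (Measurable.pow_const ?_ _))
        exact ha.comp (measurable_snd.prodMk measurable_fst)
    _ = _ := by
        congr 1
        refine lintegral_congr fun l => ?_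
        rw [lintegral_const_mul' _ _ ENNReal.ofReal_ne_top]

/-- the weighted estimate for the positive part of a function with good superlevel sets -/
theorem layer_bound (p s2 N : ℝ) (hp2 : 2 < p) (hp4 : p ≤ 4) (hs2 : 0 < s2) (hs : 1 - 3 / p < s2)
    (hs2' : s2 ≤ 1 / 2) (hN : 0 < N) :
    ∃ C : ℝ, 0 < C ∧ ∀ g : (Fin 2 → ℝ) → ℝ, Measurable g → Integrable g →
    (∀ l : ℝ, 0 < l → volume {y | l < g y} ≤ ENNReal.ofReal N ∧
      vr ({y | l < g y}.indicator 1) ^ 2 ≤ ENNReal.ofReal N * volume {y | l < g y}) →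
    ∫⁻ η : Fin 2 → ℝ, ENNReal.ofReal ((nr η ^ 2) ^ (p - 2) * kp 2 s2 η ^ p) *
      ‖ftm 2 (fun y => ((max (g y) 0 : ℝ) : ℂ)) η‖ₑ ^ p ≤
      ENNReal.ofReal C * ∫⁻ y, ENNReal.ofReal (g y) ^ p := by
  obtain ⟨C1, hC1, hset⟩ := set_enn p s2 N hp2 hp4 hs2 hs hs2' hN
  have hp0 : 0 < p := by linarith
  have hp1 : 0 < p - 1 := by linarith
  set δ : ℝ := s2 * p / 2 with hδ
  have hδ0 : 0 < δ := by positivity
  set κ : ℝ := p * δ / 2 with hκ
  have hκ0 : 0 < κ := by positivity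
  set κ' : ℝ := κ / (p - 1) with hκ'
  have hκ0' : 0 < κ' := by positivity
  refine ⟨2 ^ (p - 1) * (C1 * N ^ (1 + δ) + C1 * (1 / κ') ^ (p - 1) / κ), by positivity, ?_⟩
  set Cf : ℝ := 2 ^ (p - 1) * (C1 * N ^ (1 + δ) + C1 * (1 / κ') ^ (p - 1) / κ) with hCf
  have hCf0 : 0 < Cf := by positivity
  intro g hg hgi hlev
  set I : ℝ≥0∞ := ∫⁻ y, ENNReal.ofReal (g y) ^ p with hI
  have hmp : Measurable (fun y => ENNReal.ofReal (g y) ^ p) := hg.ennreal_ofReal.pow_const p
  by_cases hIt : I = ⊤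
  · rw [hIt, ENNReal.mul_top (by simpa using hCf0)]
    exact le_top
  by_cases hI0 : I = 0
  · have h1 : ∀ᵐ y, g y ≤ 0 := by
      rw [hI, lintegral_eq_zero_iff hmp] at hI0
      filter_upwards [hI0] with y hy
      rw [Pi.zero_apply, ENNReal.rpow_eq_zero_iff_of_pos hp0, ENNReal.ofReal_eq_zero] at hy
      exact hy
    refine le_trans (le_of_eq ?_) bot_le
    rw [ENNReal.bot_eq_zero]
    refine (lintegral_congr fun η => ?_).trans lintegral_zero
    have h2 : ftm 2 (fun y => ((max (g y) 0 : ℝ) : ℂ)) η = 0 := by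
      unfold ftm
      refine (integral_congr_ae (g := fun _ => (0 : ℂ)) ?_).trans (integral_zero _ _)
      filter_upwards [h1] with y hy
      rw [max_eq_right hy]
      simp
    rw [h2, enorm_zero, ENNReal.zero_rpow_of_pos hp0, mul_zero]
  set Λ : ℝ := I.toReal ^ (1 / p) with hΛ
  have hIr : 0 < I.toReal := ENNReal.toReal_pos hI0 hIt
  have hΛ0 : 0 < Λ := by positivity
  have hΛp : ENNReal.ofReal (Λ ^ p) = I := by
    rw [hΛ, ← Real.rpow_mul hIr.le, one_div, inv_mul_cancel₀ hp0.ne', Real.rpow_one,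
      ENNReal.ofReal_toReal hIt]
  set a : ℝ → (Fin 2 → ℝ) → ℝ≥0∞ := fun l η => ‖ftm 2 ({y | l < g y}.indicator 1) η‖ₑ with ha
  have ham : Measurable (Function.uncurry a) := (meas_layer hg).enorm
  set W : (Fin 2 → ℝ) → ℝ≥0∞ := fun η =>
    ENNReal.ofReal ((nr η ^ 2) ^ (p - 2) * kp 2 s2 η ^ p) with hW
  have hWm : Measurable W := by
    refine Measurable.ennreal_ofReal (Measurable.mul ?_ ?_)
    · unfold nr
      exact Measurable.pow_const (by fun_prop) _
    · unfold kp nr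
      exact Measurable.pow_const (Measurable.pow_const (by fun_prop) _) _
  have hWt : ∀ η, W η ≠ ⊤ := fun η => ENNReal.ofReal_ne_top
  have hΨ : ∀ l : ℝ, 0 < l → ∫⁻ η, W η * a l η ^ p ≤
      ENNReal.ofReal C1 * volume {y | l < g y} ^ (1 + δ) := by
    intro l hl
    obtain ⟨h1, h2⟩ := hlev l hl
    exact hset _ (meas_set hg l) (h1.trans_lt ENNReal.ofReal_lt_top).ne h2
  -- splitting
  have hP : ∀ η, ‖ftm 2 (fun y => ((max (g y) 0 : ℝ) : ℂ)) η‖ₑ ^ p ≤
      2 ^ (p - 1) * ((∫⁻ l in Ioc 0 Λ, a l η) ^ p + (∫⁻ l in Ioi Λ, a l η) ^ p) := by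
    intro η
    refine le_trans (ENNReal.rpow_le_rpow ?_ hp0.le)
      (ENNReal.rpow_add_le_mul_rpow_add_rpow _ _ (by linarith))
    rw [layer_eq hg hgi]
    refine (enorm_integral_le_lintegral_enorm _).trans ?_
    rw [← Ioc_union_Ioi_eq_Ioi hΛ0.le]
    exact lintegral_union_le _ _ _
  -- part 1
  have hp1' : ∫⁻ η, W η * (∫⁻ l in Ioc 0 Λ, a l η) ^ p ≤
      ENNReal.ofReal (C1 * N ^ (1 + δ)) * I := by
    have h1 := comb (volume.restrict (Ioc 0 Λ)) p (by linarith) (fun _ => 1) measurable_const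
      (Filter.Eventually.of_forall fun _ => zero_lt_one) a ham W hWm hWt (ENNReal.ofReal Λ)
      ENNReal.ofReal_ne_top (by
        simp only [Real.one_rpow, ENNReal.ofReal_one, lintegral_one, Measure.restrict_apply_univ,
          Real.volume_Ioc, sub_zero])
    refine h1.trans ?_
    have h2 : ∫⁻ l in Ioc 0 Λ, ENNReal.ofReal 1 * (∫⁻ η, W η * a l η ^ p) ≤
        ∫⁻ l in Ioc 0 Λ, ENNReal.ofReal (C1 * N ^ (1 + δ)) := by
      refine setLIntegral_mono' measurableSet_Ioc fun l hl => ?_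
      rw [ENNReal.ofReal_one, one_mul]
      refine (hΨ l hl.1).trans ?_
      rw [ENNReal.ofReal_mul hC1.le, ← ENNReal.ofReal_rpow_of_pos hN]
      exact mul_le_mul_right (ENNReal.rpow_le_rpow (hlev l hl.1).1 (by linarith)) _
    refine (mul_le_mul_right h2 _).trans (le_of_eq ?_)
    rw [setLIntegral_const, Real.volume_Ioc, sub_zero, mul_left_comm]
    congr 1
    rw [← hΛp, ENNReal.ofReal_rpow_of_pos hΛ0, ← ENNReal.ofReal_mul (by positivity)]
    congr 1
    rw [← Real.rpow_add_one hΛ0.ne']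
    congr 1; ring
  -- part 2
  have hcheb : ∀ l : ℝ, 0 < l → volume {y | l < g y} ≤ ENNReal.ofReal (Λ ^ p * l ^ (-p)) := by
    intro l hl
    have h1 := mul_meas_ge_le_lintegral hmp (ENNReal.ofReal l ^ p) (μ := volume)
    have h2 : volume {y | l < g y} ≤
        volume {y | ENNReal.ofReal l ^ p ≤ ENNReal.ofReal (g y) ^ p} := by
      refine measure_mono fun y hy => ?_
      exact ENNReal.rpow_le_rpow (ENNReal.ofReal_le_ofReal (le_of_lt hy)) hp0.le
    have h3 := (mul_le_mul_right h2 (ENNReal.ofReal l ^ p)).trans h1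
    rw [← hI, ← hΛp, ENNReal.ofReal_rpow_of_pos hl] at h3
    have h4 : ENNReal.ofReal (Λ ^ p) = ENNReal.ofReal (l ^ p) *
        ENNReal.ofReal (Λ ^ p * l ^ (-p)) := by
      rw [← ENNReal.ofReal_mul (by positivity)]
      congr 1
      rw [Real.rpow_neg hl.le]
      field_simp
    rw [h4] at h3
    refine (ENNReal.mul_le_mul_iff_right ?_ ENNReal.ofReal_ne_top).1 h3
    have : 0 < l ^ p := by positivity
    simpa using this
  have hp2' : ∫⁻ η, W η * (∫⁻ l in Ioi Λ, a l η) ^ p ≤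
      ENNReal.ofReal (C1 * (1 / κ') ^ (p - 1) / κ) * I := by
    have h1 := comb (volume.restrict (Ioi Λ)) p (by linarith) (fun l => l ^ (p - 1 + κ))
      (Measurable.pow_const measurable_id _)
      ((ae_restrict_iff' measurableSet_Ioi).2 (Filter.Eventually.of_forall fun l hl => by
        have : 0 < l := hΛ0.trans hl
        positivity)) a ham W hWm hWt (ENNReal.ofReal (Λ ^ (-κ') / κ'))
      ENNReal.ofReal_ne_top (by
        rw [← tail_int Λ κ' hΛ0 hκ0']
        refine setLIntegral_congr_fun measurableSet_Ioi fun l hl => ?_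
        have hl0 : 0 < l := hΛ0.trans hl
        change ENNReal.ofReal ((l ^ (p - 1 + κ)) ^ (-(1 / (p - 1)))) = _
        rw [← Real.rpow_mul hl0.le]
        congr 2
        rw [hκ']
        field_simp
        ring)
    refine h1.trans ?_
    have h2 : ∫⁻ l in Ioi Λ, ENNReal.ofReal (l ^ (p - 1 + κ)) * (∫⁻ η, W η * a l η ^ p) ≤
        ∫⁻ l in Ioi Λ, ENNReal.ofReal (C1 * Λ ^ (p * (1 + δ))) *
          ENNReal.ofReal (l ^ (-1 - κ)) := by
      refine setLIntegral_mono' measurableSet_Ioi fun l hl => ?_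
      have hl0 : 0 < l := hΛ0.trans hl
      have h3 := (hΨ l hl0).trans (mul_le_mul_right
        (ENNReal.rpow_le_rpow (hcheb l hl0) (by linarith : 0 ≤ 1 + δ)) _)
      refine (mul_le_mul_right h3 _).trans (le_of_eq ?_)
      rw [ENNReal.ofReal_rpow_of_pos (by positivity), ← ENNReal.ofReal_mul hC1.le,
        ← ENNReal.ofReal_mul (by positivity), ← ENNReal.ofReal_mul (by positivity)]
      congr 1
      rw [Real.mul_rpow (by positivity) (by positivity), ← Real.rpow_mul hΛ0.le,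
        ← Real.rpow_mul hl0.le]
      have e1 : l ^ (-1 - κ) = l ^ (p - 1 + κ) * l ^ (-p * (1 + δ)) := by
        rw [← Real.rpow_add hl0]
        congr 1
        rw [hκ]; ring
      rw [e1]
      ring
    refine (mul_le_mul_right h2 _).trans (le_of_eq ?_)
    rw [lintegral_const_mul' _ _ ENNReal.ofReal_ne_top, tail_int Λ κ hΛ0 hκ0, ← hΛp,
      ENNReal.ofReal_rpow_of_pos (by positivity), ← ENNReal.ofReal_mul (by positivity),
      ← ENNReal.ofReal_mul (by positivity), ← ENNReal.ofReal_mul (by positivity)]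
    congr 1
    have e2 : (Λ ^ (-κ') / κ') ^ (p - 1) = Λ ^ (-κ) * (1 / κ') ^ (p - 1) := by
      rw [div_eq_mul_one_div, Real.mul_rpow (by positivity) (by positivity),
        ← Real.rpow_mul hΛ0.le]
      congr 2
      rw [hκ']
      field_simp
    have e3 : Λ ^ p = Λ ^ (-κ) * Λ ^ (p * (1 + δ)) * Λ ^ (-κ) := by
      rw [← Real.rpow_add hΛ0, ← Real.rpow_add hΛ0]
      congr 1
      rw [hκ]; ring
    rw [e2, e3]
    ring
  have h2p : (2 : ℝ≥0∞) ^ (p - 1) = ENNReal.ofReal (2 ^ (p - 1)) := by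
    rw [← ENNReal.ofReal_rpow_of_pos (by norm_num)]
    norm_num
  calc ∫⁻ η, W η * ‖ftm 2 (fun y => ((max (g y) 0 : ℝ) : ℂ)) η‖ₑ ^ p
      ≤ ∫⁻ η, 2 ^ (p - 1) * (W η * (∫⁻ l in Ioc 0 Λ, a l η) ^ p +
          W η * (∫⁻ l in Ioi Λ, a l η) ^ p) := by
        refine lintegral_mono fun η => (mul_le_mul_right (hP η) _).trans (le_of_eq ?_)
        ring
    _ = 2 ^ (p - 1) * ((∫⁻ η, W η * (∫⁻ l in Ioc 0 Λ, a l η) ^ p) +
          ∫⁻ η, W η * (∫⁻ l in Ioi Λ, a l η) ^ p) := by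
        rw [lintegral_const_mul' _ _ (by rw [h2p]; exact ENNReal.ofReal_ne_top),
          lintegral_add_left]
        refine hWm.mul (Measurable.pow_const ?_ _)
        exact (ham.comp measurable_swap).lintegral_prod_right'
    _ ≤ 2 ^ (p - 1) * (ENNReal.ofReal (C1 * N ^ (1 + δ)) * I +
          ENNReal.ofReal (C1 * (1 / κ') ^ (p - 1) / κ) * I) :=
        mul_le_mul_right (add_le_add hp1' hp2') _
    _ = _ := by
        rw [h2p, ← add_mul, ← ENNReal.ofReal_add (by positivity) (by positivity), ← mul_assoc,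
          ← ENNReal.ofReal_mul (by positivity)]

end Pool.Agent.TH218.LS
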