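import Pool.Agent.TH280.LS.K5
import Pool.Agent.TH218.LS.Wv
set_option autoImplicit false

/-! # Assembly -/

open MeasureTheory Set Filter
open scoped ENNReal FourierTransform RealInnerProductSpace Topology

namespace Pool.Agent.TH218.LS

open Pool.Agent.TH280.LS Pool.Agent.TH280.LS.K5

/-- the estimate for one datum, from a bound `B x` of the weighted norm of the slices
(variant of `Pool.Agent.TH280.LS.K5.one_datum_gen` of helper280) -/
theorem one_datum_K (m : ℕ) (W : (Fin m → ℝ) → ℝ) (s p : ℝ) (hs : 0 < s)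
    (hTP : TW m W s p) : ∃ C : ℝ, 0 < C ∧
    ∀ (f : EuclideanSpace ℝ (Fin (m + 1)) → ℂ)
      (L : EuclideanSpace ℝ (Fin (m + 1)) ≃ₗᵢ[ℝ] EuclideanSpace ℝ (Fin (m + 1))) (B : ℝ → ℝ≥0∞),
    Integrable f →
    (∀ᵐ x : ℝ, Integrable (fun y : Fin m → ℝ => f (L ((Zc m).symm (x, y)))) →
      ∫⁻ η : Fin m → ℝ, ENNReal.ofReal (W η) *
        ‖ftm m (fun y => f (L ((Zc m).symm (x, y)))) η‖ₑ ^ p ≤ B x) →
    ∀ τ : ℝ, 0 < τ → τ ≤ 1 →
    (∫⁻ t in Icc (1 : ℝ) 2, ∫⁻ z, ‖RM m (mc s τ t) f z‖ₑ ^ p ≤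
      ENNReal.ofReal C * ∫⁻ x, B x) ∧
    (∫⁻ t in Icc (1 : ℝ) 2, ∫⁻ z, ‖RM m (ms s τ t) f z‖ₑ ^ p ≤
      ENNReal.ofReal C * ∫⁻ x, B x) := by
  obtain ⟨C1, hC1, h1⟩ := hTP
  refine ⟨C1, hC1, ?_⟩
  intro f L0 B hf hsl τ hτ hτ1
  set L := L0.symm with hLdef
  set f' : EuclideanSpace ℝ (Fin (m + 1)) → ℂ := fun z => f (L0 z) with hf'
  have hff : f = fun z => f' (L z) := by
    funext z
    simp only [hf', hLdef, LinearIsometryEquiv.apply_symm_apply]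
  have hf'i : Integrable f' := L0.measurePreserving.integrable_comp_of_integrable hf
  -- coordinates
  set g : ℝ × (Fin m → ℝ) → ℂ := fun q => f' ((Zc m).symm q) with hg
  have hgi : Integrable g := ((Zc_mp m).symm _).integrable_comp_of_integrable hf'i
  have hgf : (fun z => g (Zc m z)) = f' := by
    funext z
    simp only [hg, MeasurableEquiv.symm_apply_apply]
  -- measurable modification
  obtain ⟨g0, hg0m, hg0e⟩ : ∃ g0 : ℝ × (Fin m → ℝ) → ℂ, Measurable g0 ∧ g =ᵐ[volume] g0 :=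
    ⟨hgi.1.mk g, hgi.1.stronglyMeasurable_mk.measurable, hgi.1.ae_eq_mk⟩
  have hg0i : Integrable g0 := hgi.congr hg0e
  have hcong : (fun z => g (Zc m z)) =ᵐ[volume] fun z => g0 (Zc m z) :=
    (Zc_mp m).quasiMeasurePreserving.ae_eq_comp hg0e
  have hRM : ∀ M : ℝ → ℝ, ∀ z, RM m M f z = RM m M (fun z => g0 (Zc m z)) (L z) := by
    intro M z
    rw [← RM_congr m M hcong, hgf, hff, RM_rot]
  have hslice : ∫⁻ x : ℝ, ∫⁻ η : Fin m → ℝ,
      ENNReal.ofReal (W η) * ‖GG m g0 η x‖ₑ ^ p ≤ ∫⁻ x : ℝ, B x := by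
    have h1 : ∀ᵐ x : ℝ, ∀ᵐ y : Fin m → ℝ, g (x, y) = g0 (x, y) := Measure.ae_ae_of_ae_prod hg0e
    have h2 : ∀ᵐ x : ℝ, Integrable (fun y : Fin m → ℝ => g (x, y)) := hgi.prod_right_ae
    refine lintegral_mono_ae ?_
    filter_upwards [h1, h2, hsl] with x hx1 hx2 hx4
    have h3 : ∀ η, GG m g0 η x = ftm m (fun y => g (x, y)) η := by
      intro η
      unfold GG ftm
      refine integral_congr_ae ?_
      filter_upwards [hx1] with y hy
      rw [hy]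
    simp only [h3]
    exact hx4 hx2
  have hR : ENNReal.ofReal C1 * ∫⁻ x : ℝ, ∫⁻ η : Fin m → ℝ,
      ENNReal.ofReal (W η) * ‖GG m g0 η x‖ₑ ^ p ≤
      ENNReal.ofReal C1 * ∫⁻ x, B x := mul_le_mul_right hslice _
  have hLi : ∀ (M : ℝ → ℝ), ∫⁻ z, ‖RM m M f z‖ₑ ^ p =
      ∫⁻ z, ‖RM m M (fun z => g0 (Zc m z)) z‖ₑ ^ p := by
    intro M
    simp only [hRM M]
    exact lint_rot m (fun z => ‖RM m M (fun z => g0 (Zc m z)) z‖ₑ ^ p) L
  have hTPg := h1 τ (GG m g0) hτ hτ1 (GG_adm m hg0i hg0m)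
  constructor
  · refine (le_of_eq ?_).trans (hTPg.1.trans hR)
    refine setLIntegral_congr_fun measurableSet_Icc fun t ht => ?_
    rw [hLi, RM_lint m (mc s τ t) (measurable_mc s τ t) hτ (fun r _ => mc_le s τ t r hs) hg0i]
  · refine (le_of_eq ?_).trans (hTPg.2.trans hR)
    refine setLIntegral_congr_fun measurableSet_Icc fun t ht => ?_
    have ht2 : |t| ≤ 2 := by rw [abs_of_nonneg (by linarith [ht.1])]; exact ht.2
    rw [hLi, RM_lint m (ms s τ t) (measurable_ms s τ t) hτ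
      (fun r hr => ms_le s τ t r hs ht2 hr) hg0i]

end Pool.Agent.TH218.LS
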