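import Pool.Agent.TH218.LS.SetB
set_option autoImplicit false

/-! # From sets to functions: the layer cake -/

open MeasureTheory Set
open scoped ENNReal

namespace Pool.Agent.TH218.LS

open Pool.Agent.TH280.LS

/-- the weighted estimate for sets -/
theorem set_enn (p s2 N : ℝ) (hp2 : 2 < p) (hp4 : p ≤ 4) (hs2 : 0 < s2) (hs : 1 - 3 / p < s2)
    (hs2' : s2 ≤ 1 / 2) (hN : 0 < N) :
    ∃ C : ℝ, 0 < C ∧ ∀ K : Set (Fin 2 → ℝ), MeasurableSet K → volume K ≠ ⊤ →
    vr (K.indicator 1) ^ 2 ≤ ENNReal.ofReal N * volume K →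
    ∫⁻ η : Fin 2 → ℝ, ENNReal.ofReal ((nr η ^ 2) ^ (p - 2) * kp 2 s2 η ^ p) *
      ‖ftm 2 (K.indicator 1) η‖ₑ ^ p ≤ ENNReal.ofReal C * volume K ^ (1 + s2 * p / 2) := by
  obtain ⟨C, hC, h⟩ := set_core p s2 N hp2 hp4 hs2 hs hs2' hN
  refine ⟨C, hC, ?_⟩
  intro K hK hKt hv
  have hle : ∀ η, ‖ftm 2 (K.indicator 1) η‖ₑ ≤ volume K := by
    intro η
    refine (norm_ftm_le _ η).trans (le_of_eq ?_)
    rw [← lintegral_indicator_one hK]
    refine lintegral_congr fun y => ?_
    by_cases hy : y ∈ K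
    · simp only [indicator_of_mem hy, Pi.one_apply, enorm_one]
    · simp only [indicator_of_notMem hy, enorm_zero]
  by_cases h0 : volume K = 0
  · refine le_trans (le_of_eq ?_) bot_le
    rw [ENNReal.bot_eq_zero]
    refine (lintegral_congr fun η => ?_).trans lintegral_zero
    have h1 := hle η
    rw [h0] at h1
    rw [le_zero_iff.1 h1, ENNReal.zero_rpow_of_pos (by linarith), mul_zero]
  have hvt : vr (K.indicator 1) ≠ ⊤ := by
    intro hcon
    rw [hcon] at hv
    have h1 : (⊤ : ℝ≥0∞) ^ 2 = ⊤ := by simp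
    rw [h1, top_le_iff] at hv
    exact (ENNReal.mul_ne_top ENNReal.ofReal_ne_top hKt) hv
  have hi : Integrable (K.indicator (1 : (Fin 2 → ℝ) → ℂ)) := by
    rw [integrable_indicator_iff hK]
    exact integrableOn_const (hs := hKt)
  have hμ : 0 < (volume K).toReal := ENNReal.toReal_pos h0 hKt
  have h1 := h (K.indicator 1) (volume K).toReal (vr (K.indicator 1)).toReal hi
    (Filter.Eventually.of_forall fun y => by
      by_cases hy : y ∈ K
      · simp only [indicator_of_mem hy, Pi.one_apply, norm_one, le_refl]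
      · simp only [indicator_of_notMem hy, norm_zero, zero_le_one])
    (vr_bound hvt)
    (fun η => by
      have := hle η
      rw [← ofReal_norm] at this
      exact (ENNReal.ofReal_le_iff_le_toReal hKt).1 this)
    hμ ENNReal.toReal_nonneg (by
      have h2 := ENNReal.toReal_mono (ENNReal.mul_ne_top ENNReal.ofReal_ne_top hKt) hv
      rwa [ENNReal.toReal_pow, ENNReal.toReal_mul, ENNReal.toReal_ofReal hN.le] at h2)
  refine h1.trans (le_of_eq ?_)
  rw [ENNReal.ofReal_mul hC.le, ← ENNReal.ofReal_rpow_of_pos hμ, ENNReal.ofReal_toReal hKt]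

lemma meas_set {g : (Fin 2 → ℝ) → ℝ} (hg : Measurable g) (l : ℝ) :
    MeasurableSet {y | l < g y} := measurableSet_lt measurable_const hg

/-- the layer cake for the Fourier transform -/
lemma layer_eq {g : (Fin 2 → ℝ) → ℝ} (hg : Measurable g) (hgi : Integrable g) (η : Fin 2 → ℝ) :
    ftm 2 (fun y => ((max (g y) 0 : ℝ) : ℂ)) η =
      ∫ l in Ioi (0 : ℝ), ftm 2 ({y | l < g y}.indicator 1) η := by
  unfold ftm
  set Φ : (Fin 2 → ℝ) → ℝ → ℂ := fun y l =>
    e (-(∑ i, y i * η i)) * {y | l < g y}.indicator (1 : (Fin 2 → ℝ) → ℂ) y with hΦ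
  have hind : ∀ y, (fun l : ℝ => {y | l < g y}.indicator (1 : (Fin 2 → ℝ) → ℂ) y) =
      (Iio (g y)).indicator (fun _ => (1 : ℂ)) := by
    intro y
    funext l
    by_cases h : l < g y
    · rw [indicator_of_mem (show y ∈ {y | l < g y} from h), indicator_of_mem (show l ∈ Iio (g y)
        from h)]
      rfl
    · rw [indicator_of_notMem (show y ∉ {y | l < g y} from h), indicator_of_notMem
        (show l ∉ Iio (g y) from h)]
  have hvol : ∀ y, (volume.restrict (Ioi (0 : ℝ))) (Iio (g y)) = ENNReal.ofReal (g y) := by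
    intro y
    rw [Measure.restrict_apply measurableSet_Iio, inter_comm, Ioi_inter_Iio, Real.volume_Ioo,
      sub_zero]
  have h1 : ∀ y, e (-(∑ i, y i * η i)) * ((max (g y) 0 : ℝ) : ℂ) =
      ∫ l in Ioi (0 : ℝ), Φ y l := by
    intro y
    rw [hΦ]
    simp only []
    rw [integral_const_mul, hind y, integral_indicator_const _ measurableSet_Iio, measureReal_def,
      hvol, ENNReal.toReal_ofReal']
    simp
  simp only [h1]
  rw [integral_integral_swap]
  have hm : Measurable (Function.uncurry Φ) := by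
    have h2 : Function.uncurry Φ = fun q : (Fin 2 → ℝ) × ℝ => e (-(∑ i, q.1 i * η i)) *
        {q : (Fin 2 → ℝ) × ℝ | q.2 < g q.1}.indicator (fun _ => (1 : ℂ)) q := by
      funext q
      simp only [Function.uncurry, hΦ]
      congr 1
    rw [h2]
    refine Measurable.mul (measurable_e.comp (by fun_prop)) ?_
    exact measurable_const.indicator (measurableSet_lt measurable_snd (hg.comp measurable_fst))
  refine ⟨hm.aestronglyMeasurable, ?_⟩
  unfold HasFiniteIntegral
  rw [lintegral_prod _ hm.enorm.aemeasurable]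
  have h3 : ∀ y, ∫⁻ l in Ioi (0 : ℝ), ‖Function.uncurry Φ (y, l)‖ₑ = ENNReal.ofReal (g y) := by
    intro y
    rw [← hvol y, ← lintegral_indicator_one measurableSet_Iio]
    refine lintegral_congr fun l => ?_
    simp only [Function.uncurry, hΦ]
    rw [enorm_mul]
    have h4 : ‖e (-(∑ i, y i * η i))‖ₑ = 1 := by
      rw [← ofReal_norm, norm_e]; simp
    rw [h4, one_mul]
    have h5 : {y | l < g y}.indicator (1 : (Fin 2 → ℝ) → ℂ) y =
      (Iio (g y)).indicator (fun _ => (1 : ℂ)) l := congrFun (hind y) l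
    rw [h5]
    by_cases h : l ∈ Iio (g y)
    · simp only [indicator_of_mem h, enorm_one, Pi.one_apply]
    · simp only [indicator_of_notMem h, enorm_zero]
  simp only [h3]
  refine lt_of_le_of_lt (lintegral_mono fun y => ?_) hgi.2
  rw [← ofReal_norm]
  exact ENNReal.ofReal_le_ofReal (le_abs_self _)

lemma meas_layer {g : (Fin 2 → ℝ) → ℝ} (hg : Measurable g) :
    Measurable (fun q : ℝ × (Fin 2 → ℝ) => ftm 2 ({y | q.1 < g y}.indicator 1) q.2) := by
  have h1 : StronglyMeasurable (fun q : (ℝ × (Fin 2 → ℝ)) × (Fin 2 → ℝ) =>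
      e (-(∑ i, q.2 i * q.1.2 i)) *
        {q : (ℝ × (Fin 2 → ℝ)) × (Fin 2 → ℝ) | q.1.1 < g q.2}.indicator (fun _ => (1 : ℂ)) q) := by
    apply Measurable.stronglyMeasurable
    refine Measurable.mul (measurable_e.comp (by fun_prop)) ?_
    exact measurable_const.indicator (measurableSet_lt (by fun_prop) (hg.comp measurable_snd))
  exact (h1.integral_prod_right' (ν := volume)).measurable

end Pool.Agent.TH218.LS
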