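import Pool.Agent.TH218.LS.Layer2
set_option autoImplicit false

/-! # Complex functions with good level sets -/

open MeasureTheory Set Complex
open scoped ENNReal

namespace Pool.Agent.TH218.LS

open Pool.Agent.TH280.LS

/-- the condition on the level sets -/
def Lev (N : ℝ) (F : (Fin 2 → ℝ) → ℂ) : Prop :=
  ∀ c ∈ ({1, -1, I, -I} : Set ℂ), ∀ l : ℝ, 0 < l →
    volume {y | l < (c * F y).re} ≤ ENNReal.ofReal N ∧
    vr ({y | l < (c * F y).re}.indicator 1) ^ 2 ≤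
      ENNReal.ofReal N * volume {y | l < (c * F y).re}

lemma vr_congr {G G' : (Fin 2 → ℝ) → ℂ} (h : G =ᵐ[volume] G') : vr G = vr G' := by
  unfold vr
  refine iSup_congr fun t => ?_
  congr 1
  refine lintegral_congr_ae ?_
  have h1 : ∀ᵐ y, G (y + t) = G' (y + t) :=
    (measurePreserving_add_right volume t).quasiMeasurePreserving.ae h
  filter_upwards [h, h1] with y h2 h3
  rw [h2, h3]

lemma lev_congr {N : ℝ} {F F' : (Fin 2 → ℝ) → ℂ} (h : F =ᵐ[volume] F') (hF : Lev N F) :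
    Lev N F' := by
  intro c hc l hl
  have h1 : ({y | l < (c * F y).re} : Set (Fin 2 → ℝ)) =ᵐ[volume] {y | l < (c * F' y).re} := by
    filter_upwards [h] with y hy
    change (l < (c * F y).re) = (l < (c * F' y).re)
    rw [hy]
  have h2 : ({y | l < (c * F y).re} : Set (Fin 2 → ℝ)).indicator (1 : (Fin 2 → ℝ) → ℂ)
      =ᵐ[volume] ({y | l < (c * F' y).re} : Set (Fin 2 → ℝ)).indicator 1 :=
    indicator_ae_eq_of_ae_eq_set h1
  rw [← measure_congr h1, ← vr_congr h2]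
  exact hF c hc l hl

lemma meas_ftm {G : (Fin 2 → ℝ) → ℂ} (hG : Measurable G) : Measurable (ftm 2 G) := by
  have h1 : StronglyMeasurable (fun q : (Fin 2 → ℝ) × (Fin 2 → ℝ) =>
      e (-(∑ i, q.2 i * q.1 i)) * G q.2) := by
    apply Measurable.stronglyMeasurable
    exact Measurable.mul (measurable_e.comp (by fun_prop)) (hG.comp measurable_snd)
  exact (h1.integral_prod_right' (ν := volume)).measurable

/-- the weighted estimate for complex functions with good level sets -/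
theorem lev_bound (p s2 N : ℝ) (hp2 : 2 < p) (hp4 : p ≤ 4) (hs2 : 0 < s2) (hs : 1 - 3 / p < s2)
    (hs2' : s2 ≤ 1 / 2) (hN : 0 < N) :
    ∃ C : ℝ, 0 < C ∧ ∀ F : (Fin 2 → ℝ) → ℂ, Integrable F → Lev N F →
    ∫⁻ η : Fin 2 → ℝ, ENNReal.ofReal ((nr η ^ 2) ^ (p - 2) * kp 2 s2 η ^ p) *
      ‖ftm 2 F η‖ₑ ^ p ≤ ENNReal.ofReal C * ∫⁻ y, ‖F y‖ₑ ^ p := by
  obtain ⟨C1, hC1, hlay⟩ := layer_bound p s2 N hp2 hp4 hs2 hs hs2' hN
  have hp0 : 0 < p := by linarith
  refine ⟨2 ^ (p - 1) * 2 ^ (p - 1) * (4 * C1), by positivity, ?_⟩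
  intro F0 hF0 hL0
  obtain ⟨F, hFm, hFe⟩ : ∃ F : (Fin 2 → ℝ) → ℂ, Measurable F ∧ F0 =ᵐ[volume] F :=
    ⟨hF0.1.mk F0, hF0.1.stronglyMeasurable_mk.measurable, hF0.1.ae_eq_mk⟩
  have hF : Integrable F := hF0.congr hFe
  have hL : Lev N F := lev_congr hFe hL0
  have hft : ∀ η, ftm 2 F0 η = ftm 2 F η := by
    intro η
    unfold ftm
    refine integral_congr_ae ?_
    filter_upwards [hFe] with y hy
    rw [hy]
  have hI : ∫⁻ y, ‖F0 y‖ₑ ^ p = ∫⁻ y, ‖F y‖ₑ ^ p := by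
    refine lintegral_congr_ae ?_
    filter_upwards [hFe] with y hy
    rw [hy]
  rw [hI]
  simp only [hft]
  set g : ℂ → (Fin 2 → ℝ) → ℝ := fun c y => (c * F y).re with hg
  have hgm : ∀ c, Measurable (g c) := fun c => Complex.measurable_re.comp (hFm.const_mul c)
  have hgi : ∀ c, Integrable (g c) := fun c => (hF.const_mul c).re
  set P : ℂ → (Fin 2 → ℝ) → ℂ := fun c y => ((max (g c y) 0 : ℝ) : ℂ) with hP
  have hPm : ∀ c, Measurable (P c) := fun c =>
    Complex.measurable_ofReal.comp ((hgm c).max measurable_const)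
  have hPi : ∀ c, Integrable (P c) := fun c => (hgi c).pos_part.ofReal
  set W : (Fin 2 → ℝ) → ℝ≥0∞ := fun η =>
    ENNReal.ofReal ((nr η ^ 2) ^ (p - 2) * kp 2 s2 η ^ p) with hW
  have hWm : Measurable W := by
    refine Measurable.ennreal_ofReal (Measurable.mul ?_ ?_)
    · unfold nr
      exact Measurable.pow_const (by fun_prop) _
    · unfold kp nr
      exact Measurable.pow_const (Measurable.pow_const (by fun_prop) _) _
  have hb : ∀ c ∈ ({1, -1, I, -I} : Set ℂ), ‖c‖ ≤ 1 → ∫⁻ η, W η * ‖ftm 2 (P c) η‖ₑ ^ p ≤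
      ENNReal.ofReal C1 * ∫⁻ y, ‖F y‖ₑ ^ p := by
    intro c hc hc1
    refine (hlay (g c) (hgm c) (hgi c) (fun l hl => hL c hc l hl)).trans (mul_le_mul_right ?_ _)
    refine lintegral_mono fun y => ENNReal.rpow_le_rpow ?_ hp0.le
    rw [← ofReal_norm]
    refine ENNReal.ofReal_le_ofReal ?_
    refine (Complex.re_le_norm _).trans ?_
    rw [norm_mul]
    exact mul_le_of_le_one_left (norm_nonneg _) hc1
  have hdec : ∀ y, F y = (P 1 y - P (-1) y) + I * (P (-I) y - P I y) := by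
    intro y
    have e1 : (1 * F y).re = (F y).re := by simp
    have e2 : (-1 * F y).re = -(F y).re := by simp
    have e3 : (I * F y).re = -(F y).im := by simp
    have e4 : (-I * F y).re = (F y).im := by simp
    simp only [hP, hg, e1, e2, e3, e4]
    rw [← Complex.ofReal_sub, ← Complex.ofReal_sub]
    have e5 : max (F y).re 0 - max (-(F y).re) 0 = (F y).re := max_zero_sub_max_neg_zero_eq_self _
    have e6 : max (F y).im 0 - max (-(F y).im) 0 = (F y).im := max_zero_sub_max_neg_zero_eq_self _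
    rw [e5, e6, mul_comm]
    exact (Complex.re_add_im (F y)).symm
  have hfd : ∀ η, ftm 2 F η = (ftm 2 (P 1) η - ftm 2 (P (-1)) η) +
      I * (ftm 2 (P (-I)) η - ftm 2 (P I) η) := by
    intro η
    have i1 := integrable_char (hPi 1) η
    have i2 := integrable_char (hPi (-1)) η
    have i3 := integrable_char (hPi (-I)) η
    have i4 := integrable_char (hPi I) η
    have i12 : Integrable (fun y => e (-(∑ i, y i * η i)) * P 1 y -
      e (-(∑ i, y i * η i)) * P (-1) y) := i1.sub i2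
    have i34 : Integrable (fun y => I * (e (-(∑ i, y i * η i)) * P (-I) y -
      e (-(∑ i, y i * η i)) * P I y)) := (i3.sub i4).const_mul I
    unfold ftm
    rw [← integral_sub i1 i2, ← integral_sub i3 i4, ← integral_const_mul, ← integral_add i12 i34]
    refine integral_congr_ae (Filter.Eventually.of_forall fun y => ?_)
    change e (-(∑ i, y i * η i)) * F y = _
    rw [hdec y]
    ring
  have hfb : ∀ η, ‖ftm 2 F η‖ₑ ^ p ≤ 2 ^ (p - 1) * 2 ^ (p - 1) *
      ((‖ftm 2 (P 1) η‖ₑ ^ p + ‖ftm 2 (P (-1)) η‖ₑ ^ p) +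
        (‖ftm 2 (P (-I)) η‖ₑ ^ p + ‖ftm 2 (P I) η‖ₑ ^ p)) := by
    intro η
    have h1 : ‖ftm 2 F η‖ₑ ≤ (‖ftm 2 (P 1) η‖ₑ + ‖ftm 2 (P (-1)) η‖ₑ) +
        (‖ftm 2 (P (-I)) η‖ₑ + ‖ftm 2 (P I) η‖ₑ) := by
      rw [hfd]
      refine (enorm_add_le _ _).trans (add_le_add enorm_sub_le ?_)
      rw [enorm_mul]
      have : ‖I‖ₑ = 1 := by rw [← ofReal_norm, Complex.norm_I]; simp
      rw [this, one_mul]
      exact enorm_sub_le
    refine (ENNReal.rpow_le_rpow h1 hp0.le).trans ?_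
    refine (ENNReal.rpow_add_le_mul_rpow_add_rpow _ _ (by linarith)).trans ?_
    rw [mul_assoc]
    refine mul_le_mul_right ?_ _
    rw [mul_add]
    exact add_le_add (ENNReal.rpow_add_le_mul_rpow_add_rpow _ _ (by linarith))
      (ENNReal.rpow_add_le_mul_rpow_add_rpow _ _ (by linarith))
  have h2p : (2 : ℝ≥0∞) ^ (p - 1) = ENNReal.ofReal (2 ^ (p - 1)) := by
    rw [← ENNReal.ofReal_rpow_of_pos (by norm_num)]
    norm_num
  have hDt : (2 : ℝ≥0∞) ^ (p - 1) * 2 ^ (p - 1) ≠ ⊤ := by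
    rw [h2p]
    exact ENNReal.mul_ne_top ENNReal.ofReal_ne_top ENNReal.ofReal_ne_top
  have hm : ∀ c, Measurable (fun η => W η * ‖ftm 2 (P c) η‖ₑ ^ p) := fun c =>
    hWm.mul ((meas_ftm (hPm c)).enorm.pow_const p)
  set J : ℝ≥0∞ := ∫⁻ y, ‖F y‖ₑ ^ p with hJ
  calc ∫⁻ η, W η * ‖ftm 2 F η‖ₑ ^ p
      ≤ ∫⁻ η, (2 ^ (p - 1) * 2 ^ (p - 1)) *
          ((W η * ‖ftm 2 (P 1) η‖ₑ ^ p + W η * ‖ftm 2 (P (-1)) η‖ₑ ^ p) +
          (W η * ‖ftm 2 (P (-I)) η‖ₑ ^ p + W η * ‖ftm 2 (P I) η‖ₑ ^ p)) := by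
        refine lintegral_mono fun η => (mul_le_mul_right (hfb η) _).trans (le_of_eq ?_)
        ring
    _ = (2 ^ (p - 1) * 2 ^ (p - 1)) *
          (((∫⁻ η, W η * ‖ftm 2 (P 1) η‖ₑ ^ p) + ∫⁻ η, W η * ‖ftm 2 (P (-1)) η‖ₑ ^ p) +
          ((∫⁻ η, W η * ‖ftm 2 (P (-I)) η‖ₑ ^ p) + ∫⁻ η, W η * ‖ftm 2 (P I) η‖ₑ ^ p)) := by
        have m12 : Measurable (fun η => W η * ‖ftm 2 (P 1) η‖ₑ ^ p +
          W η * ‖ftm 2 (P (-1)) η‖ₑ ^ p) := (hm 1).add (hm (-1))
        rw [lintegral_const_mul' _ _ hDt, lintegral_add_left m12,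
          lintegral_add_left (hm 1), lintegral_add_left (hm (-I))]
    _ ≤ (2 ^ (p - 1) * 2 ^ (p - 1)) *
          ((ENNReal.ofReal C1 * J + ENNReal.ofReal C1 * J) +
          (ENNReal.ofReal C1 * J + ENNReal.ofReal C1 * J)) := by
        refine mul_le_mul_right (add_le_add (add_le_add ?_ ?_) (add_le_add ?_ ?_)) _
        · exact hb 1 (by simp) (by simp)
        · exact hb (-1) (by simp) (by simp)
        · exact hb (-I) (by simp) (by simp)
        · exact hb I (by simp) (by simp)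
    _ = _ := by
        rw [h2p, ENNReal.ofReal_mul (by positivity), ENNReal.ofReal_mul (by positivity),
          ENNReal.ofReal_mul (by norm_num)]
        have : ENNReal.ofReal 4 = 4 := by norm_num
        rw [this]
        ring

end Pool.Agent.TH218.LS
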