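import Pool.Agent.TH218.LS.Slice2
import Pool.Agent.TH218.LS.Asm
set_option autoImplicit false

/-! # Local smoothing in `ℝ³` with the variation of the slices on the right -/

open MeasureTheory Set Filter
open scoped ENNReal FourierTransform RealInnerProductSpace Topology

namespace Pool.Agent.TH218.LS

open Pool.Agent.TH280.LS Pool.Agent.TH280.LS.K5

/-- slices -/
noncomputable def slc (f : EuclideanSpace ℝ (Fin 3) → ℂ)
    (L : EuclideanSpace ℝ (Fin 3) ≃ₗᵢ[ℝ] EuclideanSpace ℝ (Fin 3)) (x : ℝ) (y : Fin 2 → ℝ) : ℂ :=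
  f (L ((Zc 2).symm (x, y)))

/-- the functional on the right -/
noncomputable def KA (p : ℝ) (f : EuclideanSpace ℝ (Fin (2 + 1)) → ℂ) : ℝ≥0∞ :=
  ⨅ L : EuclideanSpace ℝ (Fin 3) ≃ₗᵢ[ℝ] EuclideanSpace ℝ (Fin 3),
    ∫⁻ x : ℝ, (eLpNorm (slc f L x) ⊤ volume * vr (slc f L x) ^ (p - 1) + vr (slc f L x) ^ p)

/-- the weighted estimate for the propagators -/
theorem exists_tw (hE4R : S_E4R) (hONEK : S_ONEK) (hT2K : S_T2K) (hT4K : S_ONEK → S_T4K)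
    (hTPK : S_TPK) (s p : ℝ) (hs : 0 < s) (hs2 : 1 - 3 / p < s)
    (hp : 2 < p) (hp4 : p ≤ 4) : ∃ s2 : ℝ, 0 < s2 ∧ 1 - 3 / p < s2 ∧ s2 ≤ 1 / 2 ∧
      TW 2 (fun η => (nr η ^ 2) ^ (p - 2) * kp 2 s2 η ^ p) s p := by
  have hmeas : Measurable (fun η : Fin 2 → ℝ => nr η ^ 2) := by
    unfold nr
    fun_prop
  have hnn : ∀ η : Fin 2 → ℝ, 0 ≤ nr η ^ 2 := fun η => by positivity
  have hne : ∀ᵐ η : Fin 2 → ℝ, nr η ^ 2 ≠ 0 := by
    have h0 : ∀ᵐ η : Fin 2 → ℝ, η ≠ 0 := by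
      rw [ae_iff]
      have h1 : {a : Fin 2 → ℝ | ¬ a ≠ 0} = {0} := by ext; simp
      rw [h1]
      exact measure_singleton 0
    filter_upwards [h0] with η hη hcon
    have h1 : nr η = 0 := by
      by_contra hc
      exact (pow_ne_zero 2 hc) hcon
    have h2 : ‖η‖ ≤ 0 := (norm_le_nr η).trans h1.le
    exact hη (norm_le_zero_iff.1 h2)
  have h14 : 1 - 3 / p < 1 / 2 := by
    have h1 : 3 / 4 ≤ 3 / p := div_le_div_of_nonneg_left (by norm_num) (by linarith) hp4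
    linarith
  set σ0 : ℝ := max 0 (1 - 3 / p) with hσ0
  have hσs : σ0 < min s (1 / 2) := max_lt (lt_min hs (by norm_num)) (lt_min hs2 h14)
  have hσ1 : 0 ≤ σ0 := le_max_left _ _
  have hσ2 : 1 - 3 / p ≤ σ0 := le_max_right _ _
  have hm1 : min s (1 / 2) ≤ s := min_le_left _ _
  have hm2 : min s (1 / 2) ≤ 1 / 2 := min_le_right _ _
  obtain ⟨s1, s2, hs1, hs20, hs2b, hs2c, hsum⟩ : ∃ s1 s2 : ℝ, 0 < s1 ∧ 0 < s2 ∧
      1 - 3 / p < s2 ∧ s2 ≤ 1 / 2 ∧ s1 + s2 = s :=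
    ⟨s - (min s (1 / 2) + σ0) / 2, (min s (1 / 2) + σ0) / 2, by linarith, by linarith,
      by linarith, by linarith, by ring⟩
  have hkm : Measurable (kp 2 s2) := by
    unfold kp nr
    exact Measurable.pow_const (by fun_prop) _
  have hT2k : T2k 2 (kp 2 s2) s := by
    have := hT2K 2 s1 s2 (by norm_num) hs1 hs20.le
    rwa [hsum] at this
  have hT4k : T4k 2 (fun η => nr η ^ 2) (kp 2 s2) s := by
    have := hT4K hONEK 2 (fun η => nr η ^ 2) s1 s2 (by norm_num) hmeas hnn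
      (hE4R 2 (by norm_num)) hs1 hs20.le
    rwa [hsum] at this
  exact ⟨s2, hs20, hs2b, hs2c, hTPK 2 _ _ s p (by norm_num) hmeas hnn hne hkm (kp_pos s2)
    (kp_le_one hs20.le) hs hp.le hp4 hT2k hT4k⟩

/-- the estimate for one datum -/
theorem one_KA (hE4R : S_E4R) (hONEK : S_ONEK) (hT2K : S_T2K) (hT4K : S_ONEK → S_T4K)
    (hTPK : S_TPK) (s p : ℝ) (hs : 0 < s) (hs2 : 1 - 3 / p < s)
    (hp : 2 < p) (hp4 : p ≤ 4) : OneK 2 s p (KA p) := by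
  obtain ⟨s2, hs20, hs2b, -, hTW⟩ := exists_tw hE4R hONEK hT2K hT4K hTPK s p hs hs2 hp hp4
  obtain ⟨C2, hC2, hcl⟩ := slice_enn p s2 hp hp4 hs20.le hs2b
  obtain ⟨C, hC, h⟩ := one_datum_K 2 _ s p hs hTW
  refine ⟨C * C2, mul_pos hC hC2, ?_⟩
  intro f hf τ hτ hτ1
  have key : ∀ L : EuclideanSpace ℝ (Fin 3) ≃ₗᵢ[ℝ] EuclideanSpace ℝ (Fin 3),
      (∫⁻ t in Icc (1 : ℝ) 2, ∫⁻ z, ‖RM 2 (mc s τ t) f z‖ₑ ^ p ≤
        ENNReal.ofReal (C * C2) * ∫⁻ x : ℝ, (eLpNorm (slc f L x) ⊤ volume *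
          vr (slc f L x) ^ (p - 1) + vr (slc f L x) ^ p)) ∧
      (∫⁻ t in Icc (1 : ℝ) 2, ∫⁻ z, ‖RM 2 (ms s τ t) f z‖ₑ ^ p ≤
        ENNReal.ofReal (C * C2) * ∫⁻ x : ℝ, (eLpNorm (slc f L x) ⊤ volume *
          vr (slc f L x) ^ (p - 1) + vr (slc f L x) ^ p)) := by
    intro L
    have h1 := h f L (fun x => ENNReal.ofReal C2 * (eLpNorm (slc f L x) ⊤ volume *
          vr (slc f L x) ^ (p - 1) + vr (slc f L x) ^ p)) hf
      (Eventually.of_forall fun x hx => hcl (slc f L x) hx) τ hτ hτ1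
    rw [lintegral_const_mul' _ _ ENNReal.ofReal_ne_top, ← mul_assoc,
      ← ENNReal.ofReal_mul hC.le] at h1
    exact h1
  have hCC : 0 < C * C2 := mul_pos hC hC2
  unfold KA
  rw [ENNReal.mul_iInf_of_ne (by simpa using hCC) ENNReal.ofReal_ne_top]
  exact ⟨le_iInf fun L => (key L).1, le_iInf fun L => (key L).2⟩

/-- integrals over slices -/
lemma lint_slices {f : EuclideanSpace ℝ (Fin 3) → ℂ} (hf : Integrable f)
    (L : EuclideanSpace ℝ (Fin 3) ≃ₗᵢ[ℝ] EuclideanSpace ℝ (Fin 3)) (p : ℝ) :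
    ∫⁻ z, ‖f z‖ₑ ^ p = ∫⁻ x : ℝ, ∫⁻ y : Fin 2 → ℝ, ‖slc f L x y‖ₑ ^ p := by
  have hf'i : Integrable (fun z => f (L z)) := L.measurePreserving.integrable_comp_of_integrable hf
  set g : ℝ × (Fin 2 → ℝ) → ℂ := fun q => f (L ((Zc 2).symm q)) with hg
  have hgi : Integrable g := ((Zc_mp 2).symm _).integrable_comp_of_integrable hf'i
  have h7 : AEMeasurable (fun q : ℝ × (Fin 2 → ℝ) => ‖g q‖ₑ ^ p) :=
    hgi.1.aemeasurable.enorm.pow_const p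
  have h8 : ∫⁻ z, ‖f (L z)‖ₑ ^ p = ∫⁻ z, ‖f z‖ₑ ^ p := lint_rot 2 (fun z => ‖f z‖ₑ ^ p) L
  have h9 : (fun z => ‖f (L z)‖ₑ ^ p) = fun z => ‖g (Zc 2 z)‖ₑ ^ p := by
    funext z
    simp only [hg, MeasurableEquiv.symm_apply_apply]
  rw [← h8, h9]
  rw [(Zc_mp 2).lintegral_comp_emb (Zc 2).measurableEmbedding (fun q => ‖g q‖ₑ ^ p),
    Measure.volume_eq_prod, lintegral_prod _ h7]
  rfl

/-- coordinates -/
lemma Zc_symm_two (x : ℝ) (y : Fin 2 → ℝ) :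
    (Zc 2).symm (x, y) = (!₂[y 0, y 1, x] : EuclideanSpace ℝ (Fin 3)) := by
  apply (Zc 2).injective
  rw [MeasurableEquiv.apply_symm_apply, Zc_apply]
  refine Prod.ext rfl ?_
  funext i
  fin_cases i <;> rfl

lemma vr_eq (G : (Fin 2 → ℝ) → ℂ) : vr G = ⨆ h : Fin 2 → ℝ,
    (∫⁻ y : Fin 2 → ℝ, ‖G (y + h) - G y‖ₑ) / ENNReal.ofReal (Real.sqrt (h 0 ^ 2 + h 1 ^ 2)) := by
  unfold vr nr
  simp only [Fin.sum_univ_two]

/-- scaling -/
lemma vr_mul (b : ℂ) (G : (Fin 2 → ℝ) → ℂ) : vr (fun y => b * G y) = ‖b‖ₑ * vr G := by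
  unfold vr
  rw [ENNReal.mul_iSup]
  refine iSup_congr fun h => ?_
  simp only [← mul_sub, enorm_mul]
  rw [lintegral_const_mul' _ _ enorm_ne_top, mul_div_assoc]

/-- the estimate for sets -/
lemma set_bound (p N : ℝ) (hp : 3 ≤ p) (hN : 0 < N) (b : ℂ) (K : Set (Fin 2 → ℝ))
    (h1 : volume K ≤ ENNReal.ofReal N)
    (h2 : vr (K.indicator 1) ^ 2 ≤ ENNReal.ofReal N * volume K) :
    eLpNorm (fun y => b * K.indicator 1 y) ⊤ volume * vr (fun y => b * K.indicator 1 y) ^ (p - 1) +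
      vr (fun y => b * K.indicator 1 y) ^ p ≤
    ENNReal.ofReal (N ^ (p - 2) + N ^ (p - 1)) * (‖b‖ₑ ^ p * volume K) := by
  set a := volume K with ha
  set P := vr (K.indicator 1) with hP
  set n := ENNReal.ofReal N with hn
  have hn0 : n ≠ 0 := by rw [hn]; simpa using hN
  have hnt : n ≠ ⊤ := ENNReal.ofReal_ne_top
  have hat : a ≠ ⊤ := (h1.trans_lt ENNReal.ofReal_lt_top).ne
  have hA : eLpNorm (fun y => b * K.indicator (1 : (Fin 2 → ℝ) → ℂ) y) ⊤ volume ≤ ‖b‖ₑ := by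
    rw [eLpNorm_exponent_top]
    refine eLpNormEssSup_le_of_ae_enorm_bound (Eventually.of_forall fun y => ?_)
    rw [enorm_mul]
    refine mul_le_of_le_one_right (zero_le) ?_
    by_cases hy : y ∈ K
    · rw [indicator_of_mem hy]; simp
    · rw [indicator_of_notMem hy]; simp
  rw [vr_mul]
  have hpow : ∀ q : ℝ, 2 ≤ q → P ^ q ≤ n ^ (q / 2) * n ^ (q / 2 - 1) * a := by
    intro q hq
    have e1 : P ^ q = (P ^ 2) ^ (q / 2) := by
      rw [← ENNReal.rpow_natCast, ← ENNReal.rpow_mul]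
      congr 1; push_cast; ring
    rw [e1]
    refine (ENNReal.rpow_le_rpow h2 (by linarith)).trans ?_
    rw [ENNReal.mul_rpow_of_nonneg _ _ (by linarith), mul_assoc]
    refine mul_le_mul_right ?_ _
    have e2 : a ^ (q / 2) = a ^ (q / 2 - 1) * a := by
      nth_rewrite 3 [← ENNReal.rpow_one a]
      rw [← ENNReal.rpow_add_of_nonneg _ _ (by linarith) (by norm_num)]
      congr 1; ring
    rw [e2]
    exact mul_le_mul_left (ENNReal.rpow_le_rpow h1 (by linarith)) _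
  have hb : ∀ q : ℝ, 2 ≤ q → (‖b‖ₑ * P) ^ q ≤ ‖b‖ₑ ^ q * (n ^ (q - 1) * a) := by
    intro q hq
    rw [ENNReal.mul_rpow_of_nonneg _ _ (by linarith)]
    refine mul_le_mul_right ((hpow q hq).trans (le_of_eq ?_)) _
    rw [← ENNReal.rpow_add _ _ hn0 hnt]
    congr 2; ring
  have hbb : ‖b‖ₑ * ‖b‖ₑ ^ (p - 1) = ‖b‖ₑ ^ p := by
    nth_rewrite 1 [← ENNReal.rpow_one ‖b‖ₑ]
    rw [← ENNReal.rpow_add_of_nonneg _ _ (by norm_num) (by linarith)]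
    congr 1; ring
  calc eLpNorm (fun y => b * K.indicator 1 y) ⊤ volume * (‖b‖ₑ * P) ^ (p - 1) + (‖b‖ₑ * P) ^ p
      ≤ ‖b‖ₑ * (‖b‖ₑ ^ (p - 1) * (n ^ (p - 1 - 1) * a)) + ‖b‖ₑ ^ p * (n ^ (p - 1) * a) :=
        add_le_add (mul_le_mul' hA (hb (p - 1) (by linarith))) (hb p (by linarith))
    _ = (n ^ (p - 2) + n ^ (p - 1)) * (‖b‖ₑ ^ p * a) := by
        rw [← mul_assoc, hbb, add_mul, show p - 1 - 1 = p - 2 by ring]
        congr 1 <;> ring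
    _ = _ := by
        rw [hn, ENNReal.ofReal_rpow_of_pos hN, ENNReal.ofReal_rpow_of_pos hN,
          ← ENNReal.ofReal_add (by positivity) (by positivity)]

end Pool.Agent.TH218.LS
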