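import Pool.Agent.TH218.LS.Main
import Pool.Agent.TH218.LS.Lev
set_option autoImplicit false

/-! # Local smoothing in `ℝ³` for data whose slices have good level sets -/

open MeasureTheory Set Filter
open scoped ENNReal FourierTransform RealInnerProductSpace Topology

namespace Pool.Agent.TH218.LS

open Pool.Agent.TH280.LS Pool.Agent.TH280.LS.K5

/-- the weighted estimate for multiples of functions with good level sets -/
lemma lev_mul {p : ℝ} (hp : 0 < p) {N C : ℝ} {W : (Fin 2 → ℝ) → ℝ}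
    (h : ∀ F : (Fin 2 → ℝ) → ℂ, Integrable F → Lev N F →
      ∫⁻ η : Fin 2 → ℝ, ENNReal.ofReal (W η) * ‖ftm 2 F η‖ₑ ^ p ≤
        ENNReal.ofReal C * ∫⁻ y, ‖F y‖ₑ ^ p)
    (b : ℂ) (F G : (Fin 2 → ℝ) → ℂ) (hG : Integrable G) (hb : ∀ y, G y = b * F y)
    (hF : Lev N F) :
    ∫⁻ η : Fin 2 → ℝ, ENNReal.ofReal (W η) * ‖ftm 2 G η‖ₑ ^ p ≤
      ENNReal.ofReal C * ∫⁻ y, ‖G y‖ₑ ^ p := by
  by_cases hb0 : b = 0
  · refine le_trans (le_of_eq ?_) bot_le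
    rw [ENNReal.bot_eq_zero]
    refine (lintegral_congr fun η => ?_).trans lintegral_zero
    have h1 : ftm 2 G η = 0 := by
      unfold ftm
      simp only [hb, hb0, zero_mul, mul_zero, integral_zero]
    rw [h1, enorm_zero, ENNReal.zero_rpow_of_pos hp, mul_zero]
  have hFG : F = fun y => b⁻¹ * G y := by
    funext y
    rw [hb, ← mul_assoc, inv_mul_cancel₀ hb0, one_mul]
  have hFi : Integrable F := by
    rw [hFG]
    exact hG.const_mul _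
  have h1 : ∀ η, ftm 2 G η = b * ftm 2 F η := by
    intro η
    unfold ftm
    rw [← integral_const_mul]
    refine integral_congr_ae (Eventually.of_forall fun y => ?_)
    change _ * G y = _
    rw [hb]
    ring
  have hbt : ‖b‖ₑ ^ p ≠ ⊤ := ENNReal.rpow_ne_top_of_nonneg hp.le enorm_ne_top
  have h2 : ∫⁻ η : Fin 2 → ℝ, ENNReal.ofReal (W η) * ‖ftm 2 G η‖ₑ ^ p =
      ‖b‖ₑ ^ p * ∫⁻ η : Fin 2 → ℝ, ENNReal.ofReal (W η) * ‖ftm 2 F η‖ₑ ^ p := by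
    rw [← lintegral_const_mul' _ _ hbt]
    refine lintegral_congr fun η => ?_
    rw [h1, enorm_mul, ENNReal.mul_rpow_of_nonneg _ _ hp.le]
    ring
  have h3 : ∫⁻ y, ‖G y‖ₑ ^ p = ‖b‖ₑ ^ p * ∫⁻ y, ‖F y‖ₑ ^ p := by
    rw [← lintegral_const_mul' _ _ hbt]
    refine lintegral_congr fun y => ?_
    rw [hb, enorm_mul, ENNReal.mul_rpow_of_nonneg _ _ hp.le]
  rw [h2, h3, mul_left_comm]
  exact mul_le_mul_right (h F hFi hF) _

/-- the class -/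
def DL (N : ℝ) (f : EuclideanSpace ℝ (Fin (2 + 1)) → ℂ) : Prop :=
  ∃ (L : EuclideanSpace ℝ (Fin 3) ≃ₗᵢ[ℝ] EuclideanSpace ℝ (Fin 3)) (b : ℝ → ℂ)
    (F : ℝ → (Fin 2 → ℝ) → ℂ), (∀ x y, slc f L x y = b x * F x y) ∧ ∀ᵐ x : ℝ, Lev N (F x)

/-- the estimate for one datum -/
theorem one_DL (hE4R : S_E4R) (hONEK : S_ONEK) (hT2K : S_T2K) (hT4K : S_ONEK → S_T4K)
    (hTPK : S_TPK) (s p N : ℝ) (hs : 0 < s) (hs2 : 1 - 3 / p < s)
    (hp : 2 < p) (hp4 : p ≤ 4) (hN : 0 < N) : OneD 2 s p (DL N) := by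
  obtain ⟨s2, hs20, hs2b, hs2c, hTW⟩ := exists_tw hE4R hONEK hT2K hT4K hTPK s p hs hs2 hp hp4
  obtain ⟨C2, hC2, hcl⟩ := lev_bound p s2 N hp hp4 hs20 hs2b hs2c hN
  obtain ⟨C, hC, h⟩ := one_datum_K 2 _ s p hs hTW
  refine ⟨C * C2, mul_pos hC hC2, ?_⟩
  rintro f hf ⟨L, b, F, hbF, hlev⟩ τ hτ hτ1
  have h1 := h f L (fun x => ENNReal.ofReal C2 * ∫⁻ y : Fin 2 → ℝ, ‖slc f L x y‖ₑ ^ p) hf
    (by
      filter_upwards [hlev] with x hx hxi
      exact lev_mul (by linarith) hcl (b x) (F x) (slc f L x) hxi (hbF x) hx) τ hτ hτ1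
  rw [lintegral_const_mul' _ _ ENNReal.ofReal_ne_top, ← lint_slices hf L p, ← mul_assoc,
    ← ENNReal.ofReal_mul hC.le] at h1
  exact h1

end Pool.Agent.TH218.LS
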