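import Pool.Agent.TH218.LS.Slice2
set_option autoImplicit false

/-! # The weighted estimate for the Fourier transform of a set of finite perimeter -/

open MeasureTheory Set
open scoped ENNReal

namespace Pool.Agent.TH218.LS

open Pool.Agent.TH280.LS

/-- shells, with the trivial bound -/
lemma shell_triv {G : (Fin 2 → ℝ) → ℂ} {M : ℝ} (hM : ∀ η, ‖ftm 2 G η‖ ≤ M) (hM0 : 0 ≤ M)
    (p s2 : ℝ) (hp2 : 2 < p) (hp4 : p ≤ 4) (hs2 : 0 ≤ s2) (R : ℝ) (hR : 0 < R) :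
    ∫⁻ η in Shl R, ENNReal.ofReal ((nr η ^ 2) ^ (p - 2) * kp 2 s2 η ^ p) * ‖ftm 2 G η‖ₑ ^ p ≤
      ENNReal.ofReal (16 ^ 3 * M ^ p * R ^ (2 * p - 2 - s2 * p)) := by
  have hpt : ∀ η ∈ Shl R, ENNReal.ofReal ((nr η ^ 2) ^ (p - 2) * kp 2 s2 η ^ p) *
      ‖ftm 2 G η‖ₑ ^ p ≤ ENNReal.ofReal ((16 * R ^ 2) ^ (p - 2) * R ^ (-(s2 * p)) * M ^ p) := by
    rintro η ⟨h1, h2⟩
    have hn1 : R ≤ nr η := h1.trans (norm_le_nr η)
    have hn2 : nr η ≤ 4 * R := (nr_le_norm η).trans (by linarith)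
    have hnp : 0 < nr η := by linarith
    rw [← ofReal_norm, ENNReal.ofReal_rpow_of_nonneg (norm_nonneg _) (by linarith),
      ← ENNReal.ofReal_mul (by
        have := (kp_pos s2 η).le
        positivity)]
    refine ENNReal.ofReal_le_ofReal ?_
    have h3 : (nr η ^ 2) ^ (p - 2) ≤ (16 * R ^ 2) ^ (p - 2) := by
      refine Real.rpow_le_rpow (by positivity) ?_ (by linarith)
      nlinarith
    have h4 : kp 2 s2 η ^ p ≤ R ^ (-(s2 * p)) := by
      have h5 : kp 2 s2 η ≤ R ^ (-s2) := by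
        unfold kp
        exact Real.rpow_le_rpow_of_nonpos hR (by linarith) (by linarith)
      have h6 := Real.rpow_le_rpow (kp_pos s2 η).le h5 (by linarith : (0 : ℝ) ≤ p)
      rwa [← Real.rpow_mul hR.le, neg_mul] at h6
    have h7 : ‖ftm 2 G η‖ ^ p ≤ M ^ p :=
      Real.rpow_le_rpow (norm_nonneg _) (hM η) (by linarith)
    refine mul_le_mul (mul_le_mul h3 h4 ?_ (by positivity)) h7 (by positivity) (by positivity)
    exact Real.rpow_nonneg (kp_pos s2 η).le _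
  refine (setLIntegral_mono' (measurable_Shl R) hpt).trans ?_
  rw [setLIntegral_const]
  have hvol : volume (Shl R) ≤ ENNReal.ofReal (16 * R ^ 2) := by
    have hsub : Shl R ⊆ Metric.closedBall 0 (2 * R) := by
      rintro η ⟨h1, h2⟩
      rwa [mem_closedBall_zero_iff]
    refine (measure_mono hsub).trans ?_
    rw [Real.volume_pi_closedBall _ (by positivity)]
    refine ENNReal.ofReal_le_ofReal (le_of_eq ?_)
    simp only [Fintype.card_fin]
    ring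
  refine (mul_le_mul_right hvol _).trans ?_
  rw [← ENNReal.ofReal_mul (by positivity)]
  refine ENNReal.ofReal_le_ofReal ?_
  have h8 : (16 * R ^ 2 : ℝ) ^ (p - 2) = 16 ^ (p - 2) * R ^ (2 * (p - 2)) := by
    rw [Real.mul_rpow (by norm_num) (by positivity), ← Real.rpow_natCast R 2,
      ← Real.rpow_mul hR.le]
    push_cast
    ring
  have h9 : R ^ (2 * p - 2 - s2 * p) = R ^ (2 * (p - 2)) * R ^ (-(s2 * p)) * R ^ 2 := by
    rw [← Real.rpow_natCast R 2, ← Real.rpow_add hR, ← Real.rpow_add hR]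
    congr 1
    push_cast; ring
  have h10 : (16 : ℝ) ^ (p - 2) ≤ 16 ^ 2 := by
    rw [← Real.rpow_natCast 16 2]
    exact Real.rpow_le_rpow_of_exponent_le (by norm_num) (by push_cast; linarith)
  rw [h8, h9]
  have h12 : 0 ≤ R ^ (2 * (p - 2)) * R ^ (-(s2 * p)) * M ^ p * (16 * R ^ 2) := by positivity
  calc 16 ^ (p - 2) * R ^ (2 * (p - 2)) * R ^ (-(s2 * p)) * M ^ p * (16 * R ^ 2)
      = 16 ^ (p - 2) * (R ^ (2 * (p - 2)) * R ^ (-(s2 * p)) * M ^ p * (16 * R ^ 2)) := by ring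
    _ ≤ 16 ^ 2 * (R ^ (2 * (p - 2)) * R ^ (-(s2 * p)) * M ^ p * (16 * R ^ 2)) :=
        mul_le_mul_of_nonneg_right h10 h12
    _ = _ := by ring

lemma two_pow_rpow (a : ℝ) (k : ℕ) : ((2 : ℝ) ^ k) ^ a = ((2 : ℝ) ^ a) ^ k := by
  rw [← Real.rpow_natCast 2 k, ← Real.rpow_mul (by norm_num), ← Real.rpow_natCast,
    ← Real.rpow_mul (by norm_num)]
  congr 1; ring

lemma two_pow_inv_rpow (a : ℝ) (k : ℕ) : (((2 : ℝ) ^ k)⁻¹) ^ a = ((2 : ℝ) ^ (-a)) ^ k := by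
  rw [Real.inv_rpow (by positivity), two_pow_rpow, Real.rpow_neg (by norm_num), inv_pow]

/-- the weighted estimate, for a bounded function with given mass and variation -/
theorem set_core (p s2 N : ℝ) (hp2 : 2 < p) (hp4 : p ≤ 4) (hs2 : 0 < s2) (hs : 1 - 3 / p < s2)
    (hs2' : s2 ≤ 1 / 2) (hN : 0 < N) :
    ∃ C : ℝ, 0 < C ∧ ∀ (G : (Fin 2 → ℝ) → ℂ) (μ V : ℝ), Integrable G → (∀ᵐ y, ‖G y‖ ≤ 1) →
    (∀ h : Fin 2 → ℝ, ∫⁻ y : Fin 2 → ℝ, ‖G (y + h) - G y‖ₑ ≤ ENNReal.ofReal (V * nr h)) →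
    (∀ η, ‖ftm 2 G η‖ ≤ μ) → 0 < μ → 0 ≤ V → V ^ 2 ≤ N * μ →
    ∫⁻ η : Fin 2 → ℝ, ENNReal.ofReal ((nr η ^ 2) ^ (p - 2) * kp 2 s2 η ^ p) *
      ‖ftm 2 G η‖ₑ ^ p ≤ ENNReal.ofReal (C * μ ^ (1 + s2 * p / 2)) := by
  have hp0 : 0 < p := by linarith
  have hneg : p - 3 - s2 * p < 0 := by
    have h1 : (1 - 3 / p) * p < s2 * p := mul_lt_mul_of_pos_right hs hp0
    have h2 : (1 - 3 / p) * p = p - 3 := by field_simp
    linarith
  have hpos : 0 < 2 * p - 2 - s2 * p := by nlinarith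
  set q : ℝ := (2 : ℝ) ^ (p - 3 - s2 * p) with hq
  have hq0 : 0 ≤ q := by positivity
  have hq1 : q < 1 := Real.rpow_lt_one_of_one_lt_of_neg (by norm_num) hneg
  set q' : ℝ := (2 : ℝ) ^ (-(2 * p - 2 - s2 * p)) with hq'
  have hq0' : 0 ≤ q' := by positivity
  have hq1' : q' < 1 := Real.rpow_lt_one_of_one_lt_of_neg (by norm_num) (by linarith)
  have hq2 : 0 < 1 - q := by linarith
  have hq2' : 0 < 1 - q' := by linarith
  refine ⟨8 * N ^ ((p - 1) / 2) / (1 - q) + 16 ^ 3 / (1 - q'), by positivity, ?_⟩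
  intro G μ V hG hA hV hM hμ hV0 hVN
  set R0 : ℝ := μ ^ (-(1 / 2) : ℝ) with hR0
  have hR0p : 0 < R0 := by positivity
  have hcov : (Set.univ : Set (Fin 2 → ℝ)) ⊆
      {0} ∪ ((⋃ k : ℕ, Shl (R0 * 2 ^ k)) ∪ (⋃ k : ℕ, Shl (R0 * (2 ^ (k + 1))⁻¹))) := by
    intro η _
    by_cases h0 : η = 0
    · left; exact h0
    right
    have hpos : 0 < ‖η‖ := norm_pos_iff.2 h0
    rcases le_total R0 ‖η‖ with h1 | h1
    · left
      have h2 : 1 ≤ ‖η‖ / R0 := (one_le_div hR0p).2 h1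
      obtain ⟨n, hn1, hn2⟩ := exists_nat_pow_near h2 (by norm_num : (1 : ℝ) < 2)
      refine mem_iUnion.2 ⟨n, ?_, ?_⟩
      · rw [le_div_iff₀ hR0p] at hn1
        linarith
      · rw [div_lt_iff₀ hR0p, pow_succ] at hn2
        linarith
    · right
      have h2 : 1 ≤ R0 / ‖η‖ := (one_le_div hpos).2 h1
      obtain ⟨n, hn1, hn2⟩ := exists_nat_pow_near h2 (by norm_num : (1 : ℝ) < 2)
      refine mem_iUnion.2 ⟨n, ?_, ?_⟩
      · rw [div_lt_iff₀ hpos] at hn2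
        rw [← div_eq_mul_inv, div_le_iff₀ (by positivity)]
        linarith
      · rw [le_div_iff₀ hpos] at hn1
        have h3 : 2 * (R0 * (2 ^ (n + 1))⁻¹) = R0 / 2 ^ n := by
          rw [pow_succ]
          field_simp
        rw [h3, le_div_iff₀ (by positivity)]
        linarith
  set f : (Fin 2 → ℝ) → ℝ≥0∞ := fun η =>
    ENNReal.ofReal ((nr η ^ 2) ^ (p - 2) * kp 2 s2 η ^ p) * ‖ftm 2 G η‖ₑ ^ p with hf
  have h1 : ∫⁻ η, f η ≤ (∫⁻ η in ({0} : Set (Fin 2 → ℝ)), f η) +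
      ((∑' k : ℕ, ∫⁻ η in Shl (R0 * 2 ^ k), f η) +
        ∑' k : ℕ, ∫⁻ η in Shl (R0 * (2 ^ (k + 1))⁻¹), f η) := by
    rw [← setLIntegral_univ]
    refine (lintegral_mono_set hcov).trans ((lintegral_union_le _ _ _).trans ?_)
    refine add_le_add le_rfl ((lintegral_union_le _ _ _).trans ?_)
    exact add_le_add (lintegral_iUnion_le _ _) (lintegral_iUnion_le _ _)
  have h2 : ∫⁻ η in ({0} : Set (Fin 2 → ℝ)), f η = 0 :=
    setLIntegral_measure_zero _ _ (measure_singleton _)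
  set T : ℝ := μ ^ (1 + s2 * p / 2) with hT
  have hT0 : 0 ≤ T := by positivity
  have hVp : V ^ (p - 1) * R0 ^ (p - 3 - s2 * p) ≤ N ^ ((p - 1) / 2) * T := by
    have e1 : V ^ (p - 1) ≤ (N * μ) ^ ((p - 1) / 2) := by
      have : V ^ (p - 1) = (V ^ 2) ^ ((p - 1) / 2) := by
        rw [← Real.rpow_natCast V 2, ← Real.rpow_mul hV0]
        congr 1; push_cast; ring
      rw [this]
      exact Real.rpow_le_rpow (by positivity) hVN (by linarith)
    refine (mul_le_mul_of_nonneg_right e1 (by positivity)).trans (le_of_eq ?_)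
    rw [Real.mul_rpow hN.le hμ.le, mul_assoc, hR0, ← Real.rpow_mul hμ.le, ← Real.rpow_add hμ, hT]
    congr 2; ring
  have hMp : μ ^ p * R0 ^ (2 * p - 2 - s2 * p) = T := by
    rw [hR0, ← Real.rpow_mul hμ.le, ← Real.rpow_add hμ, hT]
    congr 1; ring
  have h3 : ∑' k : ℕ, ∫⁻ η in Shl (R0 * 2 ^ k), f η ≤
      ENNReal.ofReal (8 * (N ^ ((p - 1) / 2) * T) / (1 - q)) := by
    rw [← geom_sum (8 * (N ^ ((p - 1) / 2) * T)) q (by positivity) hq0 hq1]
    refine ENNReal.tsum_le_tsum fun k => ?_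
    refine (shell_high hG hA hV p s2 hp2 hp4 hs2.le (R0 * 2 ^ k) (by positivity) zero_le_one
      hV0).trans ?_
    refine ENNReal.ofReal_le_ofReal ?_
    have e2 : (R0 * 2 ^ k) ^ (p - 3 - s2 * p) = R0 ^ (p - 3 - s2 * p) * q ^ k := by
      rw [Real.mul_rpow hR0p.le (by positivity), hq, two_pow_rpow]
    rw [e2, one_mul]
    calc 8 * V ^ (p - 1) * (R0 ^ (p - 3 - s2 * p) * q ^ k)
        = 8 * (V ^ (p - 1) * R0 ^ (p - 3 - s2 * p)) * q ^ k := by ring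
      _ ≤ 8 * (N ^ ((p - 1) / 2) * T) * q ^ k := by
          refine mul_le_mul_of_nonneg_right ?_ (by positivity)
          linarith
  have h4 : ∑' k : ℕ, ∫⁻ η in Shl (R0 * (2 ^ (k + 1))⁻¹), f η ≤
      ENNReal.ofReal (16 ^ 3 * T / (1 - q')) := by
    rw [← geom_sum (16 ^ 3 * T) q' (by positivity) hq0' hq1']
    refine ENNReal.tsum_le_tsum fun k => ?_
    refine (shell_triv hM hμ.le p s2 hp2 hp4 hs2.le (R0 * (2 ^ (k + 1))⁻¹)
      (by positivity)).trans ?_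
    refine ENNReal.ofReal_le_ofReal ?_
    have h5 : (R0 * ((2 : ℝ) ^ (k + 1))⁻¹) ^ (2 * p - 2 - s2 * p) =
        R0 ^ (2 * p - 2 - s2 * p) * q' ^ (k + 1) := by
      rw [Real.mul_rpow hR0p.le (by positivity), hq', two_pow_inv_rpow]
    rw [h5]
    calc 16 ^ 3 * μ ^ p * (R0 ^ (2 * p - 2 - s2 * p) * q' ^ (k + 1))
        = 16 ^ 3 * (μ ^ p * R0 ^ (2 * p - 2 - s2 * p)) * q' ^ (k + 1) := by ring
      _ = 16 ^ 3 * T * q' ^ (k + 1) := by rw [hMp]
      _ ≤ 16 ^ 3 * T * q' ^ k := by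
          refine mul_le_mul_of_nonneg_left ?_ (by positivity)
          exact pow_le_pow_of_le_one hq0' hq1'.le (Nat.le_succ k)
  refine h1.trans ?_
  rw [h2, zero_add]
  refine (add_le_add h3 h4).trans ?_
  rw [← ENNReal.ofReal_add (by positivity) (by positivity)]
  refine ENNReal.ofReal_le_ofReal (le_of_eq ?_)
  field_simp

end Pool.Agent.TH218.LS
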