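import Pool.Agent.TH280.LS.StmC
set_option autoImplicit false

/-! # The slice inequality for functions of bounded variation on the plane -/

open MeasureTheory Set
open scoped ENNReal

namespace Pool.Agent.TH218.LS

open Pool.Agent.TH280.LS

lemma nr_nonneg {m : ℕ} (η : Fin m → ℝ) : 0 ≤ nr η := Real.sqrt_nonneg _

lemma integrable_char {m : ℕ} {G : (Fin m → ℝ) → ℂ} (hG : Integrable G) (η : Fin m → ℝ) :
    Integrable (fun y : Fin m → ℝ => e (-(∑ i, y i * η i)) * G y) := by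
  refine hG.bdd_mul (c := 1) ?_ ?_
  · exact (continuous_e.comp (by fun_prop)).aestronglyMeasurable
  · exact Filter.Eventually.of_forall fun y => (norm_e _).le

lemma ftm_shift {m : ℕ} (G : (Fin m → ℝ) → ℂ) (h η : Fin m → ℝ) :
    ftm m (fun y => G (y + h)) η = e (∑ i, h i * η i) * ftm m G η := by
  unfold ftm
  rw [← integral_const_mul]
  rw [← integral_add_right_eq_self
    (fun y : Fin m → ℝ => e (∑ i, h i * η i) * (e (-(∑ i, y i * η i)) * G y)) h]
  refine integral_congr_ae (Filter.Eventually.of_forall fun y => ?_)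
  simp only []
  rw [← mul_assoc, ← e_add]
  congr 2
  simp only [Pi.add_apply, add_mul, Finset.sum_add_distrib]
  ring

lemma ftm_diff {m : ℕ} {G : (Fin m → ℝ) → ℂ} (hG : Integrable G) (h η : Fin m → ℝ) :
    ftm m (fun y => G (y + h) - G y) η = (e (∑ i, h i * η i) - 1) * ftm m G η := by
  have h1 : Integrable (fun y => G (y + h)) := hG.comp_add_right h
  rw [sub_mul, one_mul, ← ftm_shift]
  unfold ftm
  rw [← integral_sub (integrable_char h1 η) (integrable_char hG η)]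
  refine integral_congr_ae (Filter.Eventually.of_forall fun y => ?_)
  simp only []
  ring

lemma ftm_pl {m : ℕ} (G : (Fin m → ℝ) → ℂ) (h1 : Integrable G) (h2 : MemLp G 2) :
    ∫⁻ η : Fin m → ℝ, ‖ftm m G η‖ₑ ^ 2 = ∫⁻ y : Fin m → ℝ, ‖G y‖ₑ ^ 2 := by
  rw [← ftm_planch G h1 h2]
  have h3 := (Measure.measurePreserving_neg (volume : Measure (Fin m → ℝ))).lintegral_comp_emb
    (MeasurableEquiv.neg (Fin m → ℝ)).measurableEmbedding
    (fun y => ‖∫ η : Fin m → ℝ, e (∑ i, y i * η i) * G η‖ₑ ^ 2)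
  rw [← h3]
  refine lintegral_congr fun η => ?_
  congr 2
  unfold ftm
  refine integral_congr_ae (Filter.Eventually.of_forall fun y => ?_)
  simp only []
  congr 2
  rw [← Finset.sum_neg_distrib]
  refine Finset.sum_congr rfl fun i _ => ?_
  simp only [Pi.neg_apply]
  ring

lemma norm_ftm_le {m : ℕ} (G : (Fin m → ℝ) → ℂ) (η : Fin m → ℝ) :
    ‖ftm m G η‖ₑ ≤ ∫⁻ y : Fin m → ℝ, ‖G y‖ₑ := by
  unfold ftm
  refine (enorm_integral_le_lintegral_enorm _).trans (le_of_eq ?_)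
  refine lintegral_congr fun y => ?_
  rw [enorm_mul]
  have : ‖e (-(∑ i, y i * η i))‖ₑ = 1 := by
    rw [← ofReal_norm, norm_e]; simp
  rw [this, one_mul]

lemma memLp_two {m : ℕ} {G : (Fin m → ℝ) → ℂ} {A : ℝ} (hG : Integrable G)
    (hA : ∀ᵐ y, ‖G y‖ ≤ A) : MemLp G 2 := by
  rw [memLp_two_iff_integrable_sq_norm hG.1]
  refine (hG.norm.const_mul A).mono' (hG.1.norm.pow 2) ?_
  filter_upwards [hA] with y hy
  rw [Real.norm_of_nonneg (by positivity), sq]
  exact mul_le_mul_of_nonneg_right hy (norm_nonneg _)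

lemma nr_sq {m : ℕ} (η : Fin m → ℝ) : nr η ^ 2 = ∑ i, η i ^ 2 := by
  unfold nr
  exact Real.sq_sqrt (Finset.sum_nonneg fun i _ => sq_nonneg _)

lemma nr_smul {m : ℕ} (c : ℝ) (hc : 0 ≤ c) (η : Fin m → ℝ) : nr (c • η) = c * nr η := by
  unfold nr
  simp only [Pi.smul_apply, smul_eq_mul, mul_pow]
  rw [← Finset.mul_sum, Real.sqrt_mul (by positivity), Real.sqrt_sq hc]

/-- pointwise decay -/
lemma ftm_decay {m : ℕ} {G : (Fin m → ℝ) → ℂ} {V : ℝ} (hG : Integrable G)
    (hV : ∀ h : Fin m → ℝ, ∫⁻ y : Fin m → ℝ, ‖G (y + h) - G y‖ₑ ≤ ENNReal.ofReal (V * nr h))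
    (η : Fin m → ℝ) (hη : 0 < nr η) (hV0 : 0 ≤ V) : ‖ftm m G η‖ ≤ V / (4 * nr η) := by
  set c : ℝ := 1 / (2 * nr η ^ 2) with hc
  have hc0 : 0 ≤ c := by positivity
  have h1 : ∑ i, (c • η) i * η i = 1 / 2 := by
    simp only [Pi.smul_apply, smul_eq_mul, mul_assoc]
    rw [← Finset.mul_sum]
    have : ∑ i, η i * η i = nr η ^ 2 := by
      rw [nr_sq]
      exact Finset.sum_congr rfl fun i _ => by ring
    rw [this, hc]
    field_simp
  have h2 := norm_ftm_le (fun y => G (y + c • η) - G y) η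
  rw [ftm_diff hG, h1] at h2
  have h3 : e (1 / 2) = -1 := by
    unfold e
    rw [show ((2 * Real.pi * (1 / 2) : ℝ) : ℂ) = (Real.pi : ℂ) by push_cast; ring]
    exact Complex.exp_pi_mul_I
  rw [h3] at h2
  have h4 := h2.trans (hV (c • η))
  rw [nr_smul c hc0, ← ofReal_norm, ENNReal.ofReal_le_ofReal_iff (by positivity), norm_mul] at h4
  have h5 : ‖(-1 - 1 : ℂ)‖ = 2 := by norm_num
  rw [h5] at h4
  have h6 : V * (c * nr η) = 2 * (V / (4 * nr η)) := by
    rw [hc]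
    field_simp
    ring
  rw [h6] at h4
  linarith

lemma e_sub_one (θ : ℝ) (h1 : 1 / 4 ≤ |θ|) (h2 : |θ| ≤ 1 / 2) : 2 ≤ ‖e θ - 1‖ ^ 2 := by
  have h3 : ‖e θ - 1‖ ^ 2 = 2 - 2 * Real.cos (2 * Real.pi * θ) := by
    unfold e
    rw [Complex.exp_ofReal_mul_I, ← Complex.normSq_eq_norm_sq, Complex.normSq_apply]
    simp only [Complex.sub_re, Complex.add_re, Complex.ofReal_re, Complex.mul_re, Complex.I_re,
      mul_zero, Complex.ofReal_im, Complex.I_im, mul_one, sub_self, add_zero, Complex.one_re,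
      Complex.sub_im, Complex.add_im, Complex.mul_im, zero_add, Complex.one_im, sub_zero]
    have := Real.sin_sq_add_cos_sq (2 * Real.pi * θ)
    nlinarith [this]
  have h4 : Real.cos (2 * Real.pi * θ) = Real.cos (2 * Real.pi * |θ|) := by
    rcases abs_cases θ with ⟨h, _⟩ | ⟨h, _⟩
    · rw [h]
    · rw [h, mul_neg, Real.cos_neg]
  have h5 : Real.cos (2 * Real.pi * |θ|) ≤ 0 := by
    have hpi := Real.pi_pos
    refine Real.cos_nonpos_of_pi_div_two_le_of_le ?_ ?_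
    · nlinarith
    · nlinarith
  rw [h3, h4]
  linarith

/-- the `L²` norm on a strip -/
lemma strip {m : ℕ} {G : (Fin m → ℝ) → ℂ} {A V : ℝ} (hG : Integrable G)
    (hA : ∀ᵐ y, ‖G y‖ ≤ A)
    (hV : ∀ h : Fin m → ℝ, ∫⁻ y : Fin m → ℝ, ‖G (y + h) - G y‖ₑ ≤ ENNReal.ofReal (V * nr h))
    (i : Fin m) (R : ℝ) (hR : 0 < R) (hA0 : 0 ≤ A) :
    ∫⁻ η in {η : Fin m → ℝ | R ≤ |η i| ∧ |η i| ≤ 2 * R}, ‖ftm m G η‖ₑ ^ 2 ≤
      ENNReal.ofReal (A * V / (4 * R)) := by
  set h : Fin m → ℝ := Pi.single i (1 / (4 * R)) with hh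
  set D : (Fin m → ℝ) → ℂ := fun y => G (y + h) - G y with hD
  have hDi : Integrable D := (hG.comp_add_right h).sub hG
  have hAs : ∀ᵐ y, ‖G (y + h)‖ ≤ A :=
    (measurePreserving_add_right volume h).quasiMeasurePreserving.ae hA
  have hDb : ∀ᵐ y, ‖D y‖ ≤ 2 * A := by
    filter_upwards [hA, hAs] with y h1 h2
    exact (norm_sub_le _ _).trans (by linarith)
  have hpl := ftm_pl D hDi (memLp_two hDi hDb)
  have hnr : nr h = 1 / (4 * R) := by
    unfold nr
    have : ∑ j, h j ^ 2 = (1 / (4 * R)) ^ 2 := by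
      rw [Finset.sum_eq_single i]
      · rw [hh, Pi.single_eq_same]
      · intro j _ hj
        rw [hh, Pi.single_eq_of_ne hj]
        norm_num
      · intro hi; exact absurd (Finset.mem_univ i) hi
    rw [this, Real.sqrt_sq (by positivity)]
  have hD2 : ∫⁻ y, ‖D y‖ₑ ^ 2 ≤ ENNReal.ofReal (2 * A) * ENNReal.ofReal (V * nr h) := by
    refine le_trans ?_ (mul_le_mul_right (hV h) _)
    rw [← lintegral_const_mul' _ _ ENNReal.ofReal_ne_top]
    refine lintegral_mono_ae ?_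
    filter_upwards [hDb] with y hy
    rw [sq]
    refine mul_le_mul_left ?_ _
    rw [← ofReal_norm]
    exact ENNReal.ofReal_le_ofReal hy
  have hsum : ∀ η : Fin m → ℝ, ∑ j, h j * η j = η i / (4 * R) := by
    intro η
    rw [Finset.sum_eq_single i]
    · rw [hh, Pi.single_eq_same]; ring
    · intro j _ hj
      rw [hh, Pi.single_eq_of_ne hj, zero_mul]
    · intro hi; exact absurd (Finset.mem_univ i) hi
  have hlow : ENNReal.ofReal 2 *
      ∫⁻ η in {η : Fin m → ℝ | R ≤ |η i| ∧ |η i| ≤ 2 * R}, ‖ftm m G η‖ₑ ^ 2 ≤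
      ∫⁻ η, ‖ftm m D η‖ₑ ^ 2 := by
    rw [← lintegral_const_mul' _ _ ENNReal.ofReal_ne_top]
    refine le_trans ?_ (setLIntegral_le_lintegral {η : Fin m → ℝ | R ≤ |η i| ∧ |η i| ≤ 2 * R} _)
    refine setLIntegral_mono' ?_ ?_
    · have hc : Continuous (fun η : Fin m → ℝ => |η i|) := by fun_prop
      exact (measurableSet_le measurable_const hc.measurable).inter
        (measurableSet_le hc.measurable measurable_const)
    · rintro η ⟨h1, h2⟩
      rw [hD, ftm_diff hG, hsum, enorm_mul, mul_pow]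
      refine mul_le_mul_left ?_ _
      have h4R : 0 < 4 * R := by positivity
      have h3 := e_sub_one (η i / (4 * R)) (by
        rw [abs_div, abs_of_pos h4R, le_div_iff₀ h4R]; linarith) (by
        rw [abs_div, abs_of_pos h4R, div_le_iff₀ h4R]; linarith)
      rw [← ofReal_norm, ← ENNReal.ofReal_pow (norm_nonneg _)]
      exact ENNReal.ofReal_le_ofReal h3
  have h5 : ENNReal.ofReal 2 *
      ∫⁻ η in {η : Fin m → ℝ | R ≤ |η i| ∧ |η i| ≤ 2 * R}, ‖ftm m G η‖ₑ ^ 2 ≤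
      ENNReal.ofReal 2 * ENNReal.ofReal (A * V / (4 * R)) := by
    refine hlow.trans (hpl.le.trans (hD2.trans (le_of_eq ?_)))
    rw [hnr, ← ENNReal.ofReal_mul (by positivity), ← ENNReal.ofReal_mul (by norm_num)]
    congr 1
    field_simp
  exact (ENNReal.mul_le_mul_iff_right (by norm_num) ENNReal.ofReal_ne_top).1 h5

end Pool.Agent.TH218.LS
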