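import Pool.Agent.TH218.LS.Slice
set_option autoImplicit false

/-! # The slice inequality for functions of bounded variation on the plane: dyadic sum -/

open MeasureTheory Set
open scoped ENNReal

namespace Pool.Agent.TH218.LS

open Pool.Agent.TH280.LS

lemma norm_le_nr (η : Fin 2 → ℝ) : ‖η‖ ≤ nr η := by
  rw [pi_norm_le_iff_of_nonneg (nr_nonneg η)]
  intro i
  rw [Real.norm_eq_abs, ← Real.sqrt_sq_eq_abs]
  unfold nr
  exact Real.sqrt_le_sqrt (Finset.single_le_sum (f := fun i => η i ^ 2)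
    (fun i _ => sq_nonneg _) (Finset.mem_univ i))

lemma nr_le_norm (η : Fin 2 → ℝ) : nr η ≤ 2 * ‖η‖ := by
  unfold nr
  rw [Real.sqrt_le_left (by positivity), Fin.sum_univ_two]
  have h0 : |η 0| ≤ ‖η‖ := norm_le_pi_norm η 0
  have h1 : |η 1| ≤ ‖η‖ := norm_le_pi_norm η 1
  have h2 : η 0 ^ 2 ≤ ‖η‖ ^ 2 := by rw [← sq_abs]; exact pow_le_pow_left₀ (abs_nonneg _) h0 2
  have h3 : η 1 ^ 2 ≤ ‖η‖ ^ 2 := by rw [← sq_abs]; exact pow_le_pow_left₀ (abs_nonneg _) h1 2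
  nlinarith [sq_nonneg ‖η‖]

/-- shells -/
def Shl (R : ℝ) : Set (Fin 2 → ℝ) := {η | R ≤ ‖η‖ ∧ ‖η‖ ≤ 2 * R}

lemma measurable_Shl (R : ℝ) : MeasurableSet (Shl R) := by
  have hc : Continuous (fun η : Fin 2 → ℝ => ‖η‖) := continuous_norm
  exact (measurableSet_le measurable_const hc.measurable).inter
    (measurableSet_le hc.measurable measurable_const)

lemma shell_L2 {G : (Fin 2 → ℝ) → ℂ} {A V : ℝ} (hG : Integrable G) (hA : ∀ᵐ y, ‖G y‖ ≤ A)
    (hV : ∀ h : Fin 2 → ℝ, ∫⁻ y : Fin 2 → ℝ, ‖G (y + h) - G y‖ₑ ≤ ENNReal.ofReal (V * nr h))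
    (R : ℝ) (hR : 0 < R) (hA0 : 0 ≤ A) (hV0 : 0 ≤ V) :
    ∫⁻ η in Shl R, ‖ftm 2 G η‖ₑ ^ 2 ≤ ENNReal.ofReal (A * V / (2 * R)) := by
  have hsub : Shl R ⊆ {η : Fin 2 → ℝ | R ≤ |η 0| ∧ |η 0| ≤ 2 * R} ∪
      {η : Fin 2 → ℝ | R ≤ |η 1| ∧ |η 1| ≤ 2 * R} := by
    rintro η ⟨h1, h2⟩
    have h3 : |η 0| ≤ ‖η‖ := norm_le_pi_norm η 0
    have h4 : |η 1| ≤ ‖η‖ := norm_le_pi_norm η 1
    by_cases h0 : R ≤ |η 0|
    · left; exact ⟨h0, h3.trans h2⟩
    · right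
      refine ⟨?_, h4.trans h2⟩
      by_contra hc
      push Not at h0 hc
      have : ‖η‖ < R := by
        rw [pi_norm_lt_iff hR]
        intro i
        fin_cases i
        · exact h0
        · exact hc
      linarith
  refine (lintegral_mono_set hsub).trans ((lintegral_union_le _ _ _).trans ?_)
  refine (add_le_add (strip hG hA hV 0 R hR hA0) (strip hG hA hV 1 R hR hA0)).trans ?_
  rw [← ENNReal.ofReal_add (by positivity) (by positivity)]
  refine ENNReal.ofReal_le_ofReal (le_of_eq ?_)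
  field_simp
  ring

lemma kp_pos (s2 : ℝ) (η : Fin 2 → ℝ) : 0 < kp 2 s2 η := by
  unfold kp
  have := nr_nonneg η
  positivity

lemma kp_le_one {s2 : ℝ} (hs : 0 ≤ s2) (η : Fin 2 → ℝ) : kp 2 s2 η ≤ 1 := by
  unfold kp
  have := nr_nonneg η
  exact Real.rpow_le_one_of_one_le_of_nonpos (by linarith) (by linarith)

/-- high frequencies -/
lemma shell_high {G : (Fin 2 → ℝ) → ℂ} {A V : ℝ} (hG : Integrable G) (hA : ∀ᵐ y, ‖G y‖ ≤ A)
    (hV : ∀ h : Fin 2 → ℝ, ∫⁻ y : Fin 2 → ℝ, ‖G (y + h) - G y‖ₑ ≤ ENNReal.ofReal (V * nr h))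
    (p s2 : ℝ) (hp2 : 2 < p) (hp4 : p ≤ 4) (hs2 : 0 ≤ s2)
    (R : ℝ) (hR : 0 < R) (hA0 : 0 ≤ A) (hV0 : 0 ≤ V) :
    ∫⁻ η in Shl R, ENNReal.ofReal ((nr η ^ 2) ^ (p - 2) * kp 2 s2 η ^ p) * ‖ftm 2 G η‖ₑ ^ p ≤
      ENNReal.ofReal (8 * (A * V ^ (p - 1)) * R ^ (p - 3 - s2 * p)) := by
  set c : ℝ := (4 * R * V) ^ (p - 2) * R ^ (-(s2 * p)) with hc
  have hc0 : 0 ≤ c := by positivity
  have hpt : ∀ η ∈ Shl R, ENNReal.ofReal ((nr η ^ 2) ^ (p - 2) * kp 2 s2 η ^ p) *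
      ‖ftm 2 G η‖ₑ ^ p ≤ ENNReal.ofReal c * ‖ftm 2 G η‖ₑ ^ 2 := by
    rintro η ⟨h1, h2⟩
    have hn1 : R ≤ nr η := h1.trans (norm_le_nr η)
    have hn2 : nr η ≤ 4 * R := (nr_le_norm η).trans (by linarith)
    have hnp : 0 < nr η := by linarith
    have hdec := ftm_decay hG hV η hnp hV0
    have hF : ‖ftm 2 G η‖ ≤ V / (4 * R) :=
      hdec.trans (div_le_div_of_nonneg_left hV0 (by positivity) (by linarith))
    have e1 : ‖ftm 2 G η‖ₑ ^ p = ENNReal.ofReal (‖ftm 2 G η‖ ^ (p - 2)) * ‖ftm 2 G η‖ₑ ^ 2 := by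
      rw [← ofReal_norm, ENNReal.ofReal_rpow_of_nonneg (norm_nonneg _) (by linarith),
        ← ENNReal.ofReal_pow (norm_nonneg _), ← ENNReal.ofReal_mul (by positivity)]
      congr 1
      rw [← Real.rpow_natCast (‖ftm 2 G η‖) 2,
        ← Real.rpow_add_of_nonneg (norm_nonneg _) (by linarith) (by norm_num)]
      congr 1
      push_cast; ring
    rw [e1, ← mul_assoc, ← ENNReal.ofReal_mul (by
      have := (kp_pos s2 η).le
      positivity)]
    refine mul_le_mul_left (ENNReal.ofReal_le_ofReal ?_) _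
    have h3 : (nr η ^ 2) ^ (p - 2) ≤ (16 * R ^ 2) ^ (p - 2) := by
      refine Real.rpow_le_rpow (by positivity) ?_ (by linarith)
      nlinarith
    have h4 : kp 2 s2 η ^ p ≤ R ^ (-(s2 * p)) := by
      have h5 : kp 2 s2 η ≤ R ^ (-s2) := by
        unfold kp
        exact Real.rpow_le_rpow_of_nonpos hR (by linarith) (by linarith)
      have h6 := Real.rpow_le_rpow (kp_pos s2 η).le h5 (by linarith : (0 : ℝ) ≤ p)
      rwa [← Real.rpow_mul hR.le, neg_mul] at h6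
    have h7 : ‖ftm 2 G η‖ ^ (p - 2) ≤ (V / (4 * R)) ^ (p - 2) :=
      Real.rpow_le_rpow (norm_nonneg _) hF (by linarith)
    calc (nr η ^ 2) ^ (p - 2) * kp 2 s2 η ^ p * ‖ftm 2 G η‖ ^ (p - 2)
        ≤ (16 * R ^ 2) ^ (p - 2) * R ^ (-(s2 * p)) * (V / (4 * R)) ^ (p - 2) := by
          refine mul_le_mul (mul_le_mul h3 h4 ?_ (by positivity)) h7 (by positivity)
            (by positivity)
          exact Real.rpow_nonneg (kp_pos s2 η).le _
      _ = c := by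
          rw [hc]
          have : (4 * R * V : ℝ) = (16 * R ^ 2) * (V / (4 * R)) := by field_simp; ring
          rw [this, Real.mul_rpow (x := 16 * R ^ 2) (y := V / (4 * R)) (by positivity)
            (by positivity)]
          ring
  refine (setLIntegral_mono' (measurable_Shl R) hpt).trans ?_
  rw [lintegral_const_mul' _ _ ENNReal.ofReal_ne_top]
  refine (mul_le_mul_right (shell_L2 hG hA hV R hR hA0 hV0) _).trans ?_
  rw [← ENNReal.ofReal_mul hc0]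
  refine ENNReal.ofReal_le_ofReal ?_
  have h8 : V ^ (p - 1) = V ^ (p - 2) * V := by
    rw [← Real.rpow_add_one' hV0 (by linarith)]
    congr 1; ring
  have h9 : R ^ (p - 3 - s2 * p) = R ^ (p - 2) * R ^ (-(s2 * p)) / R := by
    rw [← Real.rpow_add hR]
    nth_rewrite 3 [← Real.rpow_one R]
    rw [← Real.rpow_sub hR]
    congr 1; ring
  have h10 : (4 : ℝ) ^ (p - 2) ≤ 16 := by
    have : (4 : ℝ) ^ (p - 2) ≤ 4 ^ (2 : ℝ) :=
      Real.rpow_le_rpow_of_exponent_le (by norm_num) (by linarith)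
    refine this.trans (le_of_eq ?_)
    norm_num
  have h11 : (4 * R * V) ^ (p - 2) = 4 ^ (p - 2) * R ^ (p - 2) * V ^ (p - 2) := by
    rw [Real.mul_rpow (by positivity) hV0, Real.mul_rpow (by norm_num) hR.le]
  rw [hc, h8, h9, h11]
  have h12 : 0 ≤ R ^ (p - 2) * V ^ (p - 2) * R ^ (-(s2 * p)) * (A * V / (2 * R)) := by positivity
  calc 4 ^ (p - 2) * R ^ (p - 2) * V ^ (p - 2) * R ^ (-(s2 * p)) * (A * V / (2 * R))
      = 4 ^ (p - 2) * (R ^ (p - 2) * V ^ (p - 2) * R ^ (-(s2 * p)) * (A * V / (2 * R))) := by ring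
    _ ≤ 16 * (R ^ (p - 2) * V ^ (p - 2) * R ^ (-(s2 * p)) * (A * V / (2 * R))) :=
        mul_le_mul_of_nonneg_right h10 h12
    _ = 8 * (A * (V ^ (p - 2) * V)) * (R ^ (p - 2) * R ^ (-(s2 * p)) / R) := by
        field_simp
        ring

/-- low frequencies -/
lemma shell_low {G : (Fin 2 → ℝ) → ℂ} {V : ℝ} (hG : Integrable G)
    (hV : ∀ h : Fin 2 → ℝ, ∫⁻ y : Fin 2 → ℝ, ‖G (y + h) - G y‖ₑ ≤ ENNReal.ofReal (V * nr h))
    (p s2 : ℝ) (hp2 : 2 < p) (hp4 : p ≤ 4) (hs2 : 0 ≤ s2)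
    (R : ℝ) (hR : 0 < R) (hV0 : 0 ≤ V) :
    ∫⁻ η in Shl R, ENNReal.ofReal ((nr η ^ 2) ^ (p - 2) * kp 2 s2 η ^ p) * ‖ftm 2 G η‖ₑ ^ p ≤
      ENNReal.ofReal (16 * V ^ p * R ^ (p - 2)) := by
  have hpt : ∀ η ∈ Shl R, ENNReal.ofReal ((nr η ^ 2) ^ (p - 2) * kp 2 s2 η ^ p) *
      ‖ftm 2 G η‖ₑ ^ p ≤ ENNReal.ofReal (V ^ p * R ^ (p - 4)) := by
    rintro η ⟨h1, h2⟩
    have hn1 : R ≤ nr η := h1.trans (norm_le_nr η)
    have hnp : 0 < nr η := by linarith
    have hdec := ftm_decay hG hV η hnp hV0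
    rw [← ofReal_norm, ENNReal.ofReal_rpow_of_nonneg (norm_nonneg _) (by linarith),
      ← ENNReal.ofReal_mul (by
        have := (kp_pos s2 η).le
        positivity)]
    refine ENNReal.ofReal_le_ofReal ?_
    have h3 : kp 2 s2 η ^ p ≤ 1 :=
      Real.rpow_le_one (kp_pos s2 η).le (kp_le_one hs2 η) (by linarith)
    have h4 : ‖ftm 2 G η‖ ^ p ≤ (V / nr η) ^ p := by
      refine Real.rpow_le_rpow (norm_nonneg _) (hdec.trans ?_) (by linarith)
      exact div_le_div_of_nonneg_left hV0 hnp (by linarith)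
    calc (nr η ^ 2) ^ (p - 2) * kp 2 s2 η ^ p * ‖ftm 2 G η‖ ^ p
        ≤ (nr η ^ 2) ^ (p - 2) * 1 * (V / nr η) ^ p := by
          refine mul_le_mul (mul_le_mul_of_nonneg_left h3 (by positivity)) h4 (by positivity)
            (by positivity)
      _ = V ^ p * nr η ^ (p - 4) := by
          rw [Real.div_rpow hV0 hnp.le, ← Real.rpow_natCast (nr η) 2, ← Real.rpow_mul hnp.le]
          have : nr η ^ (p - 4) = nr η ^ (((2 : ℕ) : ℝ) * (p - 2)) / nr η ^ p := by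
            rw [← Real.rpow_sub hnp]
            congr 1
            push_cast; ring
          rw [this]
          ring
      _ ≤ V ^ p * R ^ (p - 4) := by
          refine mul_le_mul_of_nonneg_left ?_ (by positivity)
          exact Real.rpow_le_rpow_of_nonpos hR hn1 (by linarith)
  refine (setLIntegral_mono' (measurable_Shl R) hpt).trans ?_
  rw [setLIntegral_const]
  have hvol : volume (Shl R) ≤ ENNReal.ofReal (16 * R ^ 2) := by
    have hsub : Shl R ⊆ Metric.closedBall 0 (2 * R) := by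
      rintro η ⟨h1, h2⟩
      rwa [mem_closedBall_zero_iff]
    refine (measure_mono hsub).trans ?_
    rw [Real.volume_pi_closedBall _ (by positivity)]
    refine ENNReal.ofReal_le_ofReal (le_of_eq ?_)
    simp only [Fintype.card_fin]
    ring
  refine (mul_le_mul_right hvol _).trans ?_
  rw [← ENNReal.ofReal_mul (by positivity)]
  refine ENNReal.ofReal_le_ofReal (le_of_eq ?_)
  have h5 : R ^ (p - 2) = R ^ (p - 4) * R ^ 2 := by
    rw [← Real.rpow_natCast R 2, ← Real.rpow_add hR]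
    congr 1
    push_cast; ring
  rw [h5]
  ring

lemma geom_sum (c q : ℝ) (hc : 0 ≤ c) (hq0 : 0 ≤ q) (hq1 : q < 1) :
    ∑' k : ℕ, ENNReal.ofReal (c * q ^ k) = ENNReal.ofReal (c / (1 - q)) := by
  rw [← ENNReal.ofReal_tsum_of_nonneg (fun k => by positivity)
    ((summable_geometric_of_lt_one hq0 hq1).mul_left c), tsum_mul_left,
    tsum_geometric_of_lt_one hq0 hq1]
  rfl

/-- the slice inequality -/
theorem slice (p s2 : ℝ) (hp2 : 2 < p) (hp4 : p ≤ 4) (hs2 : 0 ≤ s2) (hs : 1 - 3 / p < s2) :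
    ∃ C : ℝ, 0 < C ∧ ∀ (G : (Fin 2 → ℝ) → ℂ) (A V : ℝ), Integrable G → (∀ᵐ y, ‖G y‖ ≤ A) →
    (∀ h : Fin 2 → ℝ, ∫⁻ y : Fin 2 → ℝ, ‖G (y + h) - G y‖ₑ ≤ ENNReal.ofReal (V * nr h)) →
    0 ≤ A → 0 ≤ V →
    ∫⁻ η : Fin 2 → ℝ, ENNReal.ofReal ((nr η ^ 2) ^ (p - 2) * kp 2 s2 η ^ p) *
      ‖ftm 2 G η‖ₑ ^ p ≤ ENNReal.ofReal (C * (A * V ^ (p - 1) + V ^ p)) := by
  have hp0 : 0 < p := by linarith
  have hneg : p - 3 - s2 * p < 0 := by
    have h1 : (1 - 3 / p) * p < s2 * p := mul_lt_mul_of_pos_right hs hp0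
    have h2 : (1 - 3 / p) * p = p - 3 := by field_simp
    linarith
  set q : ℝ := (2 : ℝ) ^ (p - 3 - s2 * p) with hq
  have hq0 : 0 ≤ q := by positivity
  have hq1 : q < 1 := Real.rpow_lt_one_of_one_lt_of_neg (by norm_num) hneg
  set q' : ℝ := (2 : ℝ) ^ (-(p - 2)) with hq'
  have hq0' : 0 ≤ q' := by positivity
  have hq1' : q' < 1 := Real.rpow_lt_one_of_one_lt_of_neg (by norm_num) (by linarith)
  refine ⟨8 / (1 - q) + 16 / (1 - q'), ?_, ?_⟩
  · have : 0 < 1 - q := by linarith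
    have : 0 < 1 - q' := by linarith
    positivity
  intro G A V hG hA hV hA0 hV0
  have hcov : (Set.univ : Set (Fin 2 → ℝ)) ⊆
      {0} ∪ ((⋃ k : ℕ, Shl (2 ^ k)) ∪ (⋃ k : ℕ, Shl ((2 ^ (k + 1))⁻¹))) := by
    intro η _
    by_cases h0 : η = 0
    · left; exact h0
    right
    have hpos : 0 < ‖η‖ := norm_pos_iff.2 h0
    rcases le_total 1 ‖η‖ with h1 | h1
    · left
      obtain ⟨n, hn1, hn2⟩ := exists_nat_pow_near h1 (by norm_num : (1 : ℝ) < 2)
      refine mem_iUnion.2 ⟨n, hn1, hn2.le.trans (le_of_eq ?_)⟩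
      rw [pow_succ]; ring
    · right
      have h2 : 1 ≤ ‖η‖⁻¹ := (one_le_inv₀ hpos).2 h1
      obtain ⟨n, hn1, hn2⟩ := exists_nat_pow_near h2 (by norm_num : (1 : ℝ) < 2)
      refine mem_iUnion.2 ⟨n, ?_, ?_⟩
      · rw [inv_le_comm₀ (by positivity) hpos]
        exact hn2.le
      · have h3 : ‖η‖ ≤ (2 ^ n)⁻¹ := by
          rw [le_inv_comm₀ hpos (by positivity)]
          exact hn1
        refine h3.trans (le_of_eq ?_)
        rw [pow_succ]
        field_simp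
  set f : (Fin 2 → ℝ) → ℝ≥0∞ := fun η =>
    ENNReal.ofReal ((nr η ^ 2) ^ (p - 2) * kp 2 s2 η ^ p) * ‖ftm 2 G η‖ₑ ^ p with hf
  have h1 : ∫⁻ η, f η ≤ (∫⁻ η in ({0} : Set (Fin 2 → ℝ)), f η) +
      ((∑' k : ℕ, ∫⁻ η in Shl (2 ^ k), f η) + ∑' k : ℕ, ∫⁻ η in Shl ((2 ^ (k + 1))⁻¹), f η) := by
    rw [← setLIntegral_univ]
    refine (lintegral_mono_set hcov).trans ((lintegral_union_le _ _ _).trans ?_)
    refine add_le_add le_rfl ((lintegral_union_le _ _ _).trans ?_)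
    exact add_le_add (lintegral_iUnion_le _ _) (lintegral_iUnion_le _ _)
  have h2 : ∫⁻ η in ({0} : Set (Fin 2 → ℝ)), f η = 0 :=
    setLIntegral_measure_zero _ _ (measure_singleton _)
  have h3 : ∑' k : ℕ, ∫⁻ η in Shl (2 ^ k), f η ≤
      ENNReal.ofReal (8 * (A * V ^ (p - 1)) / (1 - q)) := by
    rw [← geom_sum (8 * (A * V ^ (p - 1))) q (by positivity) hq0 hq1]
    refine ENNReal.tsum_le_tsum fun k => ?_
    refine (shell_high hG hA hV p s2 hp2 hp4 hs2 (2 ^ k) (by positivity) hA0 hV0).trans ?_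
    refine ENNReal.ofReal_le_ofReal (le_of_eq ?_)
    congr 1
    rw [hq, ← Real.rpow_natCast 2 k, ← Real.rpow_mul (by norm_num), ← Real.rpow_natCast,
      ← Real.rpow_mul (by norm_num)]
    congr 1; ring
  have h4 : ∑' k : ℕ, ∫⁻ η in Shl ((2 ^ (k + 1))⁻¹), f η ≤
      ENNReal.ofReal (16 * V ^ p / (1 - q')) := by
    rw [← geom_sum (16 * V ^ p) q' (by positivity) hq0' hq1']
    refine ENNReal.tsum_le_tsum fun k => ?_
    refine (shell_low hG hV p s2 hp2 hp4 hs2 ((2 ^ (k + 1))⁻¹) (by positivity) hV0).trans ?_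
    refine ENNReal.ofReal_le_ofReal (mul_le_mul_of_nonneg_left ?_ (by positivity))
    have h5 : ((2 : ℝ) ^ (k + 1))⁻¹ ^ (p - 2) = q' ^ (k + 1) := by
      rw [hq', Real.inv_rpow (by positivity), ← Real.rpow_natCast 2 (k + 1),
        ← Real.rpow_mul (by norm_num), ← Real.rpow_natCast, ← Real.rpow_mul (by norm_num),
        ← Real.rpow_neg (by norm_num)]
      congr 1; ring
    rw [h5]
    exact pow_le_pow_of_le_one hq0' hq1'.le (Nat.le_succ k)
  refine h1.trans ?_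
  rw [h2, zero_add]
  refine (add_le_add h3 h4).trans ?_
  have hq2 : 0 < 1 - q := by linarith
  have hq2' : 0 < 1 - q' := by linarith
  rw [← ENNReal.ofReal_add (by positivity) (by positivity)]
  refine ENNReal.ofReal_le_ofReal ?_
  have h6 : 0 ≤ A * V ^ (p - 1) := by positivity
  have h7 : 0 ≤ V ^ p := by positivity
  have h8 : 0 ≤ 8 / (1 - q) := by positivity
  have h9 : 0 ≤ 16 / (1 - q') := by positivity
  have e1 : 8 * (A * V ^ (p - 1)) / (1 - q) = 8 / (1 - q) * (A * V ^ (p - 1)) := by ring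
  have e2 : 16 * V ^ p / (1 - q') = 16 / (1 - q') * V ^ p := by ring
  rw [e1, e2]
  nlinarith [mul_nonneg h8 h7, mul_nonneg h9 h6]

/-- total variation -/
noncomputable def vr (G : (Fin 2 → ℝ) → ℂ) : ℝ≥0∞ :=
  ⨆ h : Fin 2 → ℝ, (∫⁻ y : Fin 2 → ℝ, ‖G (y + h) - G y‖ₑ) / ENNReal.ofReal (nr h)

lemma vr_bound {G : (Fin 2 → ℝ) → ℂ} (hv : vr G ≠ ⊤) (h : Fin 2 → ℝ) :
    ∫⁻ y : Fin 2 → ℝ, ‖G (y + h) - G y‖ₑ ≤ ENNReal.ofReal ((vr G).toReal * nr h) := by
  rcases (nr_nonneg h).eq_or_lt with h0 | h0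
  · have h1 : ‖h‖ ≤ 0 := (norm_le_nr h).trans h0.symm.le
    have h2 : h = 0 := norm_le_zero_iff.1 h1
    subst h2
    simp
  · have h1 : (∫⁻ y : Fin 2 → ℝ, ‖G (y + h) - G y‖ₑ) / ENNReal.ofReal (nr h) ≤ vr G :=
      le_iSup (fun h : Fin 2 → ℝ =>
        (∫⁻ y : Fin 2 → ℝ, ‖G (y + h) - G y‖ₑ) / ENNReal.ofReal (nr h)) h
    rw [ENNReal.div_le_iff (by simpa using h0) ENNReal.ofReal_ne_top] at h1
    rwa [ENNReal.ofReal_mul ENNReal.toReal_nonneg, ENNReal.ofReal_toReal hv]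

/-- the slice inequality, in terms of the supremum and the variation -/
theorem slice_enn (p s2 : ℝ) (hp2 : 2 < p) (hp4 : p ≤ 4) (hs2 : 0 ≤ s2) (hs : 1 - 3 / p < s2) :
    ∃ C : ℝ, 0 < C ∧ ∀ (G : (Fin 2 → ℝ) → ℂ), Integrable G →
    ∫⁻ η : Fin 2 → ℝ, ENNReal.ofReal ((nr η ^ 2) ^ (p - 2) * kp 2 s2 η ^ p) *
      ‖ftm 2 G η‖ₑ ^ p ≤ ENNReal.ofReal C *
        (eLpNorm G ⊤ volume * vr G ^ (p - 1) + vr G ^ p) := by
  obtain ⟨C, hC, h⟩ := slice p s2 hp2 hp4 hs2 hs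
  refine ⟨C, hC, fun G hG => ?_⟩
  have hC0 : ENNReal.ofReal C ≠ 0 := by simpa using hC
  by_cases hv : vr G = ⊤
  · rw [hv, ENNReal.top_rpow_of_pos (by linarith : (0 : ℝ) < p), add_top,
      ENNReal.mul_top hC0]
    exact le_top
  by_cases hv0 : vr G = 0
  · have hV := vr_bound hv
    rw [hv0, ENNReal.toReal_zero] at hV
    refine le_trans (le_of_eq ?_) bot_le
    rw [ENNReal.bot_eq_zero]
    refine (lintegral_congr fun η => ?_).trans lintegral_zero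
    rcases (nr_nonneg η).eq_or_lt with h0 | h0
    · rw [← h0, zero_pow (by norm_num), Real.zero_rpow (by linarith), zero_mul,
        ENNReal.ofReal_zero, zero_mul]
    · have h1 := ftm_decay hG hV η h0 le_rfl
      rw [zero_div] at h1
      have h2 : ftm 2 G η = 0 := norm_le_zero_iff.1 h1
      rw [h2, enorm_zero, ENNReal.zero_rpow_of_pos (by linarith), mul_zero]
  by_cases hA : eLpNorm G ⊤ volume = ⊤
  · have : eLpNorm G ⊤ volume * vr G ^ (p - 1) = ⊤ := by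
      rw [hA]
      refine ENNReal.top_mul ?_
      rw [Ne, ENNReal.rpow_eq_zero_iff]
      push Not
      exact ⟨fun h => absurd h hv0, fun h => absurd h hv⟩
    rw [this, top_add, ENNReal.mul_top hC0]
    exact le_top
  have hA1 : ∀ᵐ y, ‖G y‖ ≤ (eLpNorm G ⊤ volume).toReal := by
    have h1 := ae_le_eLpNormEssSup (f := G) (μ := (volume : Measure (Fin 2 → ℝ)))
    filter_upwards [h1] with y hy
    rw [← eLpNorm_exponent_top, ← ofReal_norm] at hy
    exact (ENNReal.ofReal_le_iff_le_toReal hA).1 hy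
  refine (h G _ _ hG hA1 (vr_bound hv) ENNReal.toReal_nonneg ENNReal.toReal_nonneg).trans
    (le_of_eq ?_)
  rw [ENNReal.ofReal_mul hC.le]
  congr 1
  rw [ENNReal.ofReal_add (by positivity) (by positivity),
    ENNReal.ofReal_mul ENNReal.toReal_nonneg, ENNReal.ofReal_toReal hA,
    ← ENNReal.ofReal_rpow_of_nonneg ENNReal.toReal_nonneg (by linarith),
    ← ENNReal.ofReal_rpow_of_nonneg ENNReal.toReal_nonneg (by linarith),
    ENNReal.ofReal_toReal hv]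

end Pool.Agent.TH218.LS
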